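import Mathlib

set_option autoImplicit false

namespace Pool.Agent.MP_160a79_an.Kr

/-- `N` is a norm on `X` equivalent to the given one. -/
def EqNorm {X : Type} [NormedAddCommGroup X] [NormedSpace ℝ X] (N : X → ℝ) : Prop :=
  (∀ x y : X, N (x + y) ≤ N x + N y) ∧ (∀ (c : ℝ) (x : X), N (c • x) = |c| * N x) ∧
    ∃ a b : ℝ, 0 < a ∧ 0 < b ∧ ∀ x : X, a * ‖x‖ ≤ N x ∧ N x ≤ b * ‖x‖

/-- `N` is `k`-rotund: every sequence in the unit sphere of `N` with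
`N (s n₁ + ⋯ + s n_k) → k` as `n₁, …, n_k → ∞` is convergent. -/
def Rotund {X : Type} [NormedAddCommGroup X] (k : ℕ) (N : X → ℝ) : Prop :=
  ∀ s : ℕ → X, (∀ n, N (s n) = 1) →
    Filter.Tendsto (fun p : Fin k → ℕ => N (∑ i, s (p i))) Filter.atTop (nhds (k : ℝ)) →
    ∃ x : X, Filter.Tendsto s Filter.atTop (nhds x)

end Pool.Agent.MP_160a79_an.Kr
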