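import Pool.Agent.MP_160a79_an.KDefs

/-!
Reflexive spaces with a fully `k + 1` convex renorming and no fully `k` convex renorming.
-/

set_option autoImplicit false
set_option linter.unusedSectionVars false

namespace Pool.Agent.MP_160a79_an.Kr

section Sp


open Finset

/-- A hereditary family of finite sets that contains the singletons. -/
structure Fm (Γ : Type) where
  adm : Finset Γ → Prop
  sub : ∀ {F G : Finset Γ}, adm F → G ⊆ F → adm G
  one : ∀ a, adm {a}

variable {Γ : Type} [DecidableEq Γ]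

/-- The `ℓ¹` mass of `x` on `F`. -/
def mass (F : Finset Γ) (x : Γ → ℝ) : ℝ := ∑ S ∈ F, |x S|

/-- The sum of the squares of the masses along a list of families. -/
def qs (L : List (Finset Γ)) (x : Γ → ℝ) : ℝ :=
  (L.map fun F => (mass F x) ^ 2).sum

omit [DecidableEq Γ] in
theorem mass_nonneg (F : Finset Γ) (x : Γ → ℝ) : 0 ≤ mass F x :=
  sum_nonneg fun _ _ => abs_nonneg _

omit [DecidableEq Γ] in
theorem mass_mono {F : Finset Γ} {x y : Γ → ℝ} (h : ∀ S, |x S| ≤ |y S|) :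
    mass F x ≤ mass F y :=
  sum_le_sum fun S _ => h S

omit [DecidableEq Γ] in
theorem mass_add (F : Finset Γ) (x y : Γ → ℝ) :
    mass F (x + y) ≤ mass F x + mass F y := by
  unfold mass
  rw [← sum_add_distrib]
  exact sum_le_sum fun S _ => abs_add_le _ _

omit [DecidableEq Γ] in
theorem mass_smul (F : Finset Γ) (c : ℝ) (x : Γ → ℝ) :
    mass F (c • x) = |c| * mass F x := by
  unfold mass
  rw [mul_sum]
  exact sum_congr rfl fun S _ => by simp [abs_mul]

omit [DecidableEq Γ] in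
@[simp] theorem qs_nil (x : Γ → ℝ) : qs [] x = 0 := rfl

omit [DecidableEq Γ] in
@[simp] theorem qs_cons (F : Finset Γ) (L : List (Finset Γ))
    (x : Γ → ℝ) : qs (F :: L) x = (mass F x) ^ 2 + qs L x := by
  simp [qs]

omit [DecidableEq Γ] in
theorem qs_append (L L' : List (Finset Γ)) (x : Γ → ℝ) :
    qs (L ++ L') x = qs L x + qs L' x := by
  simp [qs]

omit [DecidableEq Γ] in
theorem qs_nonneg (L : List (Finset Γ)) (x : Γ → ℝ) : 0 ≤ qs L x := by
  induction L with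
  | nil => simp
  | cons F L ih => rw [qs_cons]; positivity

omit [DecidableEq Γ] in
theorem qs_mono (L : List (Finset Γ)) {x y : Γ → ℝ} (h : ∀ S, |x S| ≤ |y S|) :
    qs L x ≤ qs L y := by
  induction L with
  | nil => simp
  | cons F L ih =>
    rw [qs_cons, qs_cons]
    have h1 := mass_mono (F := F) h
    have h2 := mass_nonneg F x
    have : mass F x ^ 2 ≤ mass F y ^ 2 := by gcongr
    linarith

omit [DecidableEq Γ] in
theorem qs_smul (L : List (Finset Γ)) (c : ℝ) (x : Γ → ℝ) :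
    qs L (c • x) = c ^ 2 * qs L x := by
  induction L with
  | nil => simp
  | cons F L ih =>
    rw [qs_cons, qs_cons, ih, mass_smul, mul_pow, sq_abs]
    ring

omit [DecidableEq Γ] in
theorem qs_add (L : List (Finset Γ)) (x y : Γ → ℝ) {t : ℝ} (ht : 0 < t) :
    qs L (x + y) ≤ (1 + t) * qs L x + (1 + 1 / t) * qs L y := by
  induction L with
  | nil => simp
  | cons F L ih =>
    rw [qs_cons, qs_cons, qs_cons]
    have h1 := mass_add F x y
    have h2 := mass_nonneg F (x + y)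
    have h3 : mass F (x + y) ^ 2 ≤ (mass F x + mass F y) ^ 2 := by gcongr
    have h4 : (mass F x + mass F y) ^ 2 ≤
        (1 + t) * mass F x ^ 2 + (1 + 1 / t) * mass F y ^ 2 := by
      have : 0 ≤ (t * mass F x - mass F y) ^ 2 / t := by positivity
      have e : (1 + t) * mass F x ^ 2 + (1 + 1 / t) * mass F y ^ 2 - (mass F x + mass F y) ^ 2
          = (t * mass F x - mass F y) ^ 2 / t := by
        field_simp
        ring
      linarith
    linarith

/-- total mass along a list -/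
def ms (L : List (Finset Γ)) (x : Γ → ℝ) : ℝ :=
  (L.map fun F => mass F x).sum

omit [DecidableEq Γ] in
@[simp] theorem ms_nil (x : Γ → ℝ) : ms [] x = 0 := rfl

omit [DecidableEq Γ] in
@[simp] theorem ms_cons (F : Finset Γ) (L : List (Finset Γ))
    (x : Γ → ℝ) : ms (F :: L) x = mass F x + ms L x := by
  simp [ms]

omit [DecidableEq Γ] in
theorem ms_nonneg (L : List (Finset Γ)) (x : Γ → ℝ) : 0 ≤ ms L x := by
  induction L with
  | nil => simp
  | cons F L ih => rw [ms_cons]; have := mass_nonneg F x; positivity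

theorem ms_le_aux (L : List (Finset Γ)) (hL : L.Pairwise Disjoint)
    (x : Γ → ℝ) (A : Finset Γ) :
    (L.map fun F => mass (F ∩ A) x).sum ≤ mass A x := by
  induction L generalizing A with
  | nil => simpa using mass_nonneg A x
  | cons F L ih =>
    rw [List.pairwise_cons] at hL
    have h1 := ih hL.2 (A \ F)
    have h2 : (L.map fun G => mass (G ∩ (A \ F)) x) = L.map fun G => mass (G ∩ A) x := by
      apply List.map_congr_left
      intro G hG
      congr 1
      ext S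
      have := hL.1 G hG
      rw [Finset.disjoint_left] at this
      simp only [mem_inter, mem_sdiff]
      constructor
      · rintro ⟨a, b, _⟩; exact ⟨a, b⟩
      · rintro ⟨a, b⟩; exact ⟨a, b, fun h => this h a⟩
    rw [h2] at h1
    rw [List.map_cons, List.sum_cons]
    have h3 : mass (F ∩ A) x + mass (A \ F) x = mass A x := by
      unfold mass
      rw [inter_comm, sum_inter_add_sum_sdiff]
    linarith

theorem mass_inter_eq {x : Γ → ℝ} {A : Finset Γ} (hx : ∀ S ∉ A, x S = 0)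
    (F : Finset Γ) : mass (F ∩ A) x = mass F x := by
  unfold mass
  apply sum_subset inter_subset_left
  intro S hS hS'
  have : S ∉ A := fun h => hS' (mem_inter.2 ⟨hS, h⟩)
  simp [hx S this]

theorem ms_le (L : List (Finset Γ)) (hL : L.Pairwise Disjoint)
    {x : Γ → ℝ} {A : Finset Γ} (hx : ∀ S ∉ A, x S = 0) :
    ms L x ≤ mass A x := by
  have := ms_le_aux L hL x A
  simpa only [mass_inter_eq hx, ms] using this

omit [DecidableEq Γ] in
theorem qs_le_ms_sq (L : List (Finset Γ)) (x : Γ → ℝ) :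
    qs L x ≤ (ms L x) ^ 2 := by
  induction L with
  | nil => simp
  | cons F L ih =>
    rw [qs_cons, ms_cons]
    have h1 := mass_nonneg F x
    have h2 := ms_nonneg L x
    nlinarith [mul_nonneg h1 h2]

variable {P : Fm Γ}

variable (P) in
/-- Lists of pairwise disjoint admissible families. -/
def Fam (L : List (Finset Γ)) : Prop :=
  (∀ F ∈ L, P.adm F) ∧ L.Pairwise Disjoint

theorem fam_nil : Fam P ([] : List (Finset Γ)) := ⟨by simp, List.Pairwise.nil⟩

theorem fam_single {F : Finset Γ} (h : P.adm F) : Fam P [F] :=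
  ⟨by simpa using h, List.pairwise_singleton _ _⟩

variable (P) in
/-- The underlying vector space. -/
def sub : Submodule ℝ (Γ → ℝ) where
  carrier := {x | ∃ M : ℝ, ∀ L, Fam P L → qs L x ≤ M}
  add_mem' := by
    rintro x y ⟨M, hM⟩ ⟨M', hM'⟩
    refine ⟨(1 + 1) * M + (1 + 1 / 1) * M', fun L hL => ?_⟩
    have h1 := qs_add L x y one_pos
    have h2 := hM L hL
    have h3 := hM' L hL
    linarith
  zero_mem' := by
    refine ⟨0, fun L _ => ?_⟩
    have := qs_smul L 0 (0 : Γ → ℝ)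
    simp at this
    exact this.le
  smul_mem' := by
    rintro c x ⟨M, hM⟩
    refine ⟨c ^ 2 * M, fun L hL => ?_⟩
    rw [qs_smul]
    exact mul_le_mul_of_nonneg_left (hM L hL) (sq_nonneg c)

variable (P) in
/-- The space. -/
def BX : Type := ↥(sub P)

instance : AddCommGroup (BX P) := inferInstanceAs (AddCommGroup ↥(sub P))
instance : Module ℝ (BX P) := inferInstanceAs (Module ℝ ↥(sub P))

/-- coordinates -/
def BX.val (x : BX P) : Γ → ℝ := Subtype.val x

/-- build an element -/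
def BX.mk (x : Γ → ℝ) (h : ∃ M : ℝ, ∀ L, Fam P L → qs L x ≤ M) : BX P :=
  (⟨x, h⟩ : ↥(sub P))

@[simp] theorem BX.val_mk (x : Γ → ℝ) (h : ∃ M : ℝ, ∀ L, Fam P L → qs L x ≤ M) :
    (BX.mk x h).val = x := rfl

theorem BX.bdd (x : BX P) : ∃ M : ℝ, ∀ L, Fam P L → qs L x.val ≤ M := Subtype.property x

theorem BX.ext {x y : BX P} (h : x.val = y.val) : x = y := Subtype.ext h

@[simp] theorem BX.val_add (x y : BX P) : (x + y).val = x.val + y.val := rfl
@[simp] theorem BX.val_sub (x y : BX P) : (x - y).val = x.val - y.val := rfl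
@[simp] theorem BX.val_neg (x : BX P) : (-x).val = -x.val := rfl
@[simp] theorem BX.val_zero : (0 : BX P).val = 0 := rfl
@[simp] theorem BX.val_smul (c : ℝ) (x : BX P) : (c • x).val = c • x.val := rfl

/-- The square of the norm. -/
noncomputable def QQ (x : BX P) : ℝ := ⨆ L : {L : List (Finset Γ) // Fam P L}, qs L.1 x.val

instance : Nonempty {L : List (Finset Γ) // Fam P L} := ⟨⟨[], fam_nil⟩⟩

theorem le_QQ (x : BX P) {L : List (Finset Γ)} (hL : Fam P L) : qs L x.val ≤ QQ x := by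
  obtain ⟨M, hM⟩ := x.bdd
  refine le_ciSup (f := fun L : {L : List (Finset Γ) // Fam P L} => qs L.1 x.val)
    ⟨M, ?_⟩ ⟨L, hL⟩
  rintro _ ⟨L, rfl⟩
  exact hM L.1 L.2

theorem QQ_le (x : BX P) {M : ℝ} (h : ∀ L, Fam P L → qs L x.val ≤ M) : QQ x ≤ M :=
  ciSup_le fun L => h L.1 L.2

theorem QQ_nonneg (x : BX P) : 0 ≤ QQ x := by
  simpa using le_QQ x fam_nil

theorem QQ_smul_le (c : ℝ) (x : BX P) : QQ (c • x) ≤ c ^ 2 * QQ x := by
  apply QQ_le
  intro L hL
  rw [BX.val_smul, qs_smul]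
  exact mul_le_mul_of_nonneg_left (le_QQ x hL) (sq_nonneg c)

theorem eq_zero_of_QQ (x : BX P) (h : QQ x = 0) : x = 0 := by
  apply BX.ext
  funext S
  have h1 := le_QQ x (fam_single (P.one S))
  rw [h] at h1
  simp [mass] at h1
  simpa using h1

theorem sqrt_QQ_add (x y : BX P) : √(QQ (x + y)) ≤ √(QQ x) + √(QQ y) := by
  by_cases hx : QQ x = 0
  · rw [eq_zero_of_QQ x hx, zero_add]
    have := Real.sqrt_nonneg (QQ (0 : BX P))
    linarith
  by_cases hy : QQ y = 0
  · rw [eq_zero_of_QQ y hy, add_zero]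
    have := Real.sqrt_nonneg (QQ (0 : BX P))
    linarith
  have hx' : 0 < QQ x := lt_of_le_of_ne (QQ_nonneg x) (Ne.symm hx)
  have hy' : 0 < QQ y := lt_of_le_of_ne (QQ_nonneg y) (Ne.symm hy)
  set a := √(QQ x) with ha
  set b := √(QQ y) with hb
  have ha0 : 0 < a := Real.sqrt_pos.2 hx'
  have hb0 : 0 < b := Real.sqrt_pos.2 hy'
  have ha2 : a ^ 2 = QQ x := Real.sq_sqrt hx'.le
  have hb2 : b ^ 2 = QQ y := Real.sq_sqrt hy'.le
  apply Real.sqrt_le_iff.2 ⟨by positivity, ?_⟩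
  apply QQ_le
  intro L hL
  have ht : 0 < b / a := by positivity
  have h1 := qs_add L x.val y.val ht
  have h2 := le_QQ x hL
  have h3 := le_QQ y hL
  have h4 : (1 + b / a) * qs L x.val ≤ (1 + b / a) * a ^ 2 := by
    rw [ha2]; gcongr
  have h5 : (1 + 1 / (b / a)) * qs L y.val ≤ (1 + 1 / (b / a)) * b ^ 2 := by
    rw [hb2]; gcongr
  have h6 : (1 + b / a) * a ^ 2 + (1 + 1 / (b / a)) * b ^ 2 = (a + b) ^ 2 := by
    field_simp
    ring
  rw [BX.val_add]
  linarith

theorem QQ_neg (x : BX P) : QQ (-x) = QQ x := by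
  have h : ∀ x : BX P, QQ (-x) ≤ QQ x := fun x => by
    have := QQ_smul_le (-1) x
    simpa using this
  apply le_antisymm (h x)
  have := h (-x)
  rwa [neg_neg] at this

noncomputable instance : NormedAddCommGroup (BX P) :=
  AddGroupNorm.toNormedAddCommGroup
    { toFun := fun x => √(QQ x)
      map_zero' := by
        have h := QQ_smul_le 0 (0 : BX P)
        simp at h
        exact Real.sqrt_eq_zero'.2 h
      add_le' := sqrt_QQ_add
      neg' := fun x => by rw [QQ_neg]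
      eq_zero_of_map_eq_zero' := fun x hx => by
        apply eq_zero_of_QQ
        exact le_antisymm (Real.sqrt_eq_zero'.1 hx) (QQ_nonneg x) }

theorem norm_def (x : BX P) : ‖x‖ = √(QQ x) := rfl

noncomputable instance : NormedSpace ℝ (BX P) where
  norm_smul_le c x := by
    rw [norm_def, norm_def]
    have h := QQ_smul_le c x
    calc √(QQ (c • x)) ≤ √(c ^ 2 * QQ x) := Real.sqrt_le_sqrt h
      _ = ‖c‖ * √(QQ x) := by
        rw [Real.sqrt_mul (sq_nonneg c), Real.sqrt_sq_eq_abs, Real.norm_eq_abs]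

theorem norm_sq (x : BX P) : ‖x‖ ^ 2 = QQ x := by
  rw [norm_def, Real.sq_sqrt (QQ_nonneg x)]

theorem qs_le_norm_sq (x : BX P) {L : List (Finset Γ)} (hL : Fam P L) :
    qs L x.val ≤ ‖x‖ ^ 2 := by
  rw [norm_sq]; exact le_QQ x hL

theorem norm_sq_le (x : BX P) {M : ℝ} (h : ∀ L, Fam P L → qs L x.val ≤ M) : ‖x‖ ^ 2 ≤ M := by
  rw [norm_sq]; exact QQ_le x h

theorem norm_le_of_qs (x : BX P) {M : ℝ} (hM : 0 ≤ M) (h : ∀ L, Fam P L → qs L x.val ≤ M ^ 2) :
    ‖x‖ ≤ M :=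
  abs_le_of_sq_le_sq' (norm_sq_le x h) hM |>.2

theorem mass_le_norm (x : BX P) {F : Finset Γ} (h : P.adm F) :
    mass F x.val ≤ ‖x‖ := by
  have h1 := qs_le_norm_sq x (fam_single h)
  simp only [qs_cons, qs_nil, add_zero] at h1
  exact abs_le_of_sq_le_sq' h1 (norm_nonneg x) |>.2

theorem coord_le_norm (x : BX P) (S : Γ) : |x.val S| ≤ ‖x‖ := by
  have := mass_le_norm x (P.one S)
  simpa [mass] using this

theorem norm_mono {x y : BX P} (h : ∀ S, |x.val S| ≤ |y.val S|) : ‖x‖ ≤ ‖y‖ :=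
  norm_le_of_qs x (norm_nonneg y) fun L hL => (qs_mono L h).trans (qs_le_norm_sq y hL)

theorem qs_le_of_supp {x : Γ → ℝ} {A : Finset Γ} (hx : ∀ S ∉ A, x S = 0)
    {L : List (Finset Γ)} (hL : Fam P L) : qs L x ≤ (mass A x) ^ 2 := by
  have h1 := qs_le_ms_sq L x
  have h2 := ms_le L hL.2 hx
  have h3 := ms_nonneg L x
  have : ms L x ^ 2 ≤ mass A x ^ 2 := by gcongr
  linarith

theorem norm_le_mass (x : BX P) {A : Finset Γ} (hx : ∀ S ∉ A, x.val S = 0) :
    ‖x‖ ≤ mass A x.val :=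
  norm_le_of_qs x (mass_nonneg _ _) fun _ hL => qs_le_of_supp hx hL

variable (P) in
/-- A finitely supported vector. -/
def ofSupp (x : Γ → ℝ) (A : Finset Γ) (hx : ∀ S ∉ A, x S = 0) : BX P :=
  BX.mk x ⟨(mass A x) ^ 2, fun _ hL => qs_le_of_supp hx hL⟩

variable (P) in
/-- Restriction of a function to a finite set of coordinates. -/
def res (A : Finset Γ) (x : Γ → ℝ) : BX P :=
  ofSupp P (fun S => if S ∈ A then x S else 0) A (fun S hS => by simp [hS])

theorem res_val (A : Finset Γ) (x : Γ → ℝ) (S : Γ) :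
    (res P A x).val S = if S ∈ A then x S else 0 := rfl

variable (P) in
/-- Unit vectors. -/
def ev (S : Γ) : BX P := res P {S} (fun _ => 1)

theorem ev_val (S T : Γ) : (ev P S).val T = if T = S then 1 else 0 := by
  simp [ev, res_val]

theorem norm_res_le (A : Finset Γ) (x : BX P) : ‖res P A x.val‖ ≤ ‖x‖ := by
  apply norm_mono
  intro S
  rw [res_val]
  split_ifs <;> simp

theorem norm_sub_res_le (A : Finset Γ) (x : BX P) : ‖x - res P A x.val‖ ≤ ‖x‖ := by
  apply norm_mono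
  intro S
  rw [BX.val_sub, Pi.sub_apply, res_val]
  split_ifs <;> simp

theorem val_sum {ι : Type*} (s : Finset ι) (f : ι → BX P) (T : Γ) :
    (∑ i ∈ s, f i).val T = ∑ i ∈ s, (f i).val T := by
  classical
  induction s using Finset.induction_on with
  | empty => simp
  | insert a s ha ih => rw [sum_insert ha, sum_insert ha, BX.val_add, Pi.add_apply, ih]

theorem res_eq_sum (A : Finset Γ) (x : Γ → ℝ) :
    res P A x = ∑ S ∈ A, x S • ev P S := by
  apply BX.ext
  funext T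
  rw [val_sum, res_val]
  simp only [BX.val_smul, Pi.smul_apply, ev_val, smul_eq_mul, mul_ite, mul_one, mul_zero]
  rw [Finset.sum_ite_eq]

variable (P) in
/-- Coordinate functionals. -/
noncomputable def co (S : Γ) : BX P →L[ℝ] ℝ :=
  LinearMap.mkContinuous
    { toFun := fun x => x.val S
      map_add' := fun _ _ => rfl
      map_smul' := fun _ _ => rfl } 1 (fun x => by simpa using coord_le_norm x S)

@[simp] theorem co_apply (S : Γ) (x : BX P) : co P S x = x.val S := rfl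

/-- The finite-rank truncation of a functional. -/
noncomputable def trunc (A : Finset Γ) (φ : BX P →L[ℝ] ℝ) : BX P →L[ℝ] ℝ :=
  ∑ S ∈ A, φ (ev P S) • co P S

theorem trunc_apply (A : Finset Γ) (φ : BX P →L[ℝ] ℝ) (x : BX P) :
    trunc A φ x = φ (res P A x.val) := by
  rw [res_eq_sum, map_sum, trunc, _root_.sum_apply]
  refine sum_congr rfl fun S _ => ?_
  simp [mul_comm]

theorem norm_trunc_le (A : Finset Γ) (φ : BX P →L[ℝ] ℝ) : ‖trunc A φ‖ ≤ ‖φ‖ := by
  apply ContinuousLinearMap.opNorm_le_bound _ (norm_nonneg _)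
  intro x
  rw [trunc_apply]
  exact (φ.le_opNorm _).trans (mul_le_mul_of_nonneg_left (norm_res_le A x) (norm_nonneg _))

/-- union of a list of families -/
def uni (L : List (Finset Γ)) : Finset Γ := L.foldr (· ∪ ·) ∅

theorem subset_uni {L : List (Finset Γ)} {F : Finset Γ} (h : F ∈ L) :
    F ⊆ uni L := by
  induction L with
  | nil => simp at h
  | cons G L ih =>
    rcases List.mem_cons.1 h with rfl | h
    · exact subset_union_left
    · exact (ih h).trans subset_union_right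

omit [DecidableEq Γ] in
theorem qs_congr {L : List (Finset Γ)} {x y : Γ → ℝ}
    (h : ∀ F ∈ L, mass F x = mass F y) : qs L x = qs L y := by
  unfold qs
  congr 1
  exact List.map_congr_left fun F hF => by rw [h F hF]

theorem qs_res_uni (L : List (Finset Γ)) (x : Γ → ℝ) :
    qs L (res P (uni L) x).val = qs L x := by
  apply qs_congr
  intro F hF
  refine sum_congr rfl fun S hS => ?_
  rw [res_val, if_pos (subset_uni hF hS)]

theorem exists_res_close (x : BX P) {ε : ℝ} (hε : 0 < ε) :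
    ∃ A : Finset Γ, ‖x - res P A x.val‖ ≤ ε := by
  have h1 : QQ x - ε ^ 2 < QQ x := by have := pow_pos hε 2; linarith
  obtain ⟨⟨L, hL⟩, hL2⟩ := exists_lt_of_lt_ciSup h1
  refine ⟨uni L, norm_le_of_qs _ hε.le fun L' hL' => ?_⟩
  have hfam : Fam P (L ++ L'.map (· \ uni L)) := by
    constructor
    · intro F hF
      rcases List.mem_append.1 hF with h | h
      · exact hL.1 F h
      · obtain ⟨G, hG, rfl⟩ := List.mem_map.1 h
        exact P.sub (hL'.1 G hG) sdiff_subset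
    · rw [List.pairwise_append]
      refine ⟨hL.2, ?_, ?_⟩
      · rw [List.pairwise_map]
        exact hL'.2.imp fun h => h.mono sdiff_subset sdiff_subset
      · intro F hF G hG
        obtain ⟨G, _, rfl⟩ := List.mem_map.1 hG
        exact Disjoint.mono_left (subset_uni hF) disjoint_sdiff
  have h2 := le_QQ x hfam
  rw [qs_append] at h2
  have h3 : qs (L'.map (· \ uni L)) x.val = qs L' (x - res P (uni L) x.val).val := by
    unfold qs
    rw [List.map_map]
    congr 1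
    apply List.map_congr_left
    intro F _
    simp only [Function.comp]
    congr 1
    unfold mass
    rw [← sum_sdiff (inter_subset_left : F ∩ uni L ⊆ F), sdiff_inter_self_left]
    have e1 : ∑ S ∈ F ∩ uni L, |(x - res P (uni L) x.val).val S| = 0 := by
      apply sum_eq_zero
      intro S hS
      rw [BX.val_sub, Pi.sub_apply, res_val, if_pos (mem_inter.1 hS).2]
      simp
    rw [e1, add_zero]
    refine sum_congr rfl fun S hS => ?_
    rw [BX.val_sub, Pi.sub_apply, res_val, if_neg (mem_sdiff.1 hS).2, sub_zero]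
  simp only at hL2
  linarith

/-- Every functional is a limit of its truncations. -/
def Shr (P : Fm Γ) : Prop :=
  ∀ (φ : BX P →L[ℝ] ℝ) (ε : ℝ), 0 < ε → ∃ A : Finset Γ, ‖φ - trunc A φ‖ ≤ ε

theorem reflexive (hs : Shr P) :
    Function.Surjective (NormedSpace.inclusionInDoubleDual ℝ (BX P)) := by
  intro Φ
  set c : Γ → ℝ := fun S => Φ (co P S) with hc
  have htr : ∀ (A : Finset Γ) (ψ : BX P →L[ℝ] ℝ), Φ (trunc A ψ) = ψ (res P A c) := by
    intro A ψ
    rw [res_eq_sum, map_sum, trunc, map_sum]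
    refine sum_congr rfl fun S _ => ?_
    simp [hc, mul_comm]
  have hb : ∀ A : Finset Γ, ‖res P A c‖ ≤ ‖Φ‖ := by
    intro A
    obtain ⟨ψ, hψ1, hψ2⟩ := exists_dual_vector'' ℝ (res P A c)
    have h1 := htr A ψ
    have h2 : Φ (trunc A ψ) ≤ ‖Φ‖ * ‖trunc A ψ‖ := (le_abs_self _).trans (Φ.le_opNorm _)
    have h3 := (norm_trunc_le A ψ).trans hψ1
    have h4 : ‖Φ‖ * ‖trunc A ψ‖ ≤ ‖Φ‖ * 1 := by gcongr
    rw [h1, hψ2] at h2
    simp at h2
    linarith
  have hbdd : ∃ M : ℝ, ∀ L, Fam P L → qs L c ≤ M := by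
    refine ⟨‖Φ‖ ^ 2, fun L hL => ?_⟩
    rw [← qs_res_uni]
    refine (qs_le_norm_sq _ hL).trans ?_
    have := hb (uni L)
    gcongr
  refine ⟨BX.mk c hbdd, ?_⟩
  ext φ
  rw [NormedSpace.dual_def]
  set x := BX.mk c hbdd with hx
  apply eq_of_forall_dist_le
  intro ε hε
  obtain ⟨A, hA⟩ := hs φ (ε / (‖x‖ + ‖Φ‖ + 1)) (by positivity)
  have h1 : φ x - Φ φ = (φ - trunc A φ) x - Φ (φ - trunc A φ) := by
    rw [map_sub, _root_.sub_apply, trunc_apply, htr]
    simp [hx]
  rw [Real.dist_eq, h1]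
  have h2 : |(φ - trunc A φ) x| ≤ ‖φ - trunc A φ‖ * ‖x‖ := (φ - trunc A φ).le_opNorm x
  have h3 : |Φ (φ - trunc A φ)| ≤ ‖Φ‖ * ‖φ - trunc A φ‖ := Φ.le_opNorm _
  have h4 := abs_sub ((φ - trunc A φ) x) (Φ (φ - trunc A φ))
  have h5 : ‖φ - trunc A φ‖ * (‖x‖ + ‖Φ‖ + 1) ≤ ε := by
    rwa [le_div_iff₀ (by positivity)] at hA
  have := norm_nonneg (φ - trunc A φ)
  nlinarith

theorem complete (hs : Shr P) : CompleteSpace (BX P) := by
  have h : Function.Surjective (NormedSpace.inclusionInDoubleDualLi (E := BX P) ℝ) := reflexive hs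
  exact (LinearIsometryEquiv.ofSurjective _ h).toIsometryEquiv.completeSpace

end Sp

section Fl


open Finset Filter Topology

theorem exists_rec {X : Type} (Q : ∀ n : ℕ, (Fin n → X) → X → Prop) (h : ∀ n g, ∃ x, Q n g x) :
    ∃ s : ℕ → X, ∀ n, Q n (fun i => s i) (s n) := by
  choose f hf using h
  refine ⟨(wellFounded_lt (α := ℕ)).fix fun n ih => f n fun i => ih i i.2, fun n => ?_⟩
  rw [WellFounded.fix_eq]
  exact hf _ _

theorem sq_sub_le {K : ℕ} (v : Fin K → ℝ) (i j : Fin K) :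
    (v i - v j) ^ 2 ≤ 2 * (K * ∑ i, v i ^ 2 - (∑ i, v i) ^ 2) := by
  have h : ∑ i, ∑ j, (v i - v j) ^ 2 = 2 * (K * ∑ i, v i ^ 2 - (∑ i, v i) ^ 2) := by
    simp only [sub_sq, sum_add_distrib, sum_sub_distrib, sum_const, card_univ, Fintype.card_fin,
      nsmul_eq_mul, ← mul_sum, ← sum_mul]
    ring
  rw [← h]
  exact (single_le_sum (f := fun j => (v i - v j) ^ 2) (fun _ _ => sq_nonneg _) (mem_univ j)).trans
    (single_le_sum (f := fun i => ∑ j, (v i - v j) ^ 2)
      (fun _ _ => sum_nonneg fun _ _ => sq_nonneg _) (mem_univ i))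

theorem sq_sum_le {K : ℕ} (v : Fin K → ℝ) : (∑ i, v i) ^ 2 ≤ K * ∑ i, v i ^ 2 := by
  simpa using sq_sum_le_card_mul_sum_sq (s := univ) (f := v)

theorem sq_add_le (a b : ℝ) {t : ℝ} (ht : 0 < t) :
    (a + b) ^ 2 ≤ (1 + t) * a ^ 2 + (1 + 1 / t) * b ^ 2 := by
  have : 0 ≤ (t * a - b) ^ 2 / t := by positivity
  have e : (1 + t) * a ^ 2 + (1 + 1 / t) * b ^ 2 - (a + b) ^ 2 = (t * a - b) ^ 2 / t := by
    field_simp
    ring
  linarith

section defect

variable {X : Type} [NormedAddCommGroup X] {K : ℕ}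

/-- The convexity defect of a tuple. -/
noncomputable def Dl (z : Fin K → X) : ℝ := K * ∑ i, ‖z i‖ ^ 2 - ‖∑ i, z i‖ ^ 2

theorem Dl_nonneg (z : Fin K → X) : 0 ≤ Dl z := by
  have h1 := sq_sum_le fun i => ‖z i‖
  have h2 : ‖∑ i, z i‖ ^ 2 ≤ (∑ i, ‖z i‖) ^ 2 := by gcongr; exact norm_sum_le _ _
  unfold Dl
  linarith

theorem norm_sq_le_add {x y : X} {M δ : ℝ} (hx : ‖x‖ ≤ M) (hy : ‖y‖ ≤ M) (h : ‖x - y‖ ≤ δ) :
    ‖x‖ ^ 2 ≤ ‖y‖ ^ 2 + 2 * M * δ := by
  have h1 := norm_sub_norm_le x y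
  have h2 := norm_nonneg x
  have h3 := norm_nonneg y
  have h4 := norm_nonneg (x - y)
  nlinarith [mul_le_mul (show ‖x‖ + ‖y‖ ≤ 2 * M by linarith) h h4 (by linarith)]

theorem Dl_le {y z : Fin K → X} {M δ : ℝ} (hy : ∀ i, ‖y i‖ ≤ M) (hz : ∀ i, ‖z i‖ ≤ M)
    (h : ∀ i, ‖y i - z i‖ ≤ δ) : Dl z ≤ Dl y + 4 * K ^ 2 * M * δ := by
  have b : ∀ (w : Fin K → X) (c : ℝ), (∀ i, ‖w i‖ ≤ c) → ‖∑ i, w i‖ ≤ K * c := fun w c hw =>
    (norm_sum_le _ _).trans (by simpa using sum_le_sum fun i (_ : i ∈ univ) => hw i)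
  have h1 := norm_sq_le_add (δ := K * δ) (b y M hy) (b z M hz)
    (by rw [← sum_sub_distrib]; exact b _ δ h)
  have h2 : ∑ i, ‖z i‖ ^ 2 ≤ ∑ i, ‖y i‖ ^ 2 + K * (2 * M * δ) := by
    simpa [sum_add_distrib] using sum_le_sum fun i (_ : i ∈ univ) =>
      norm_sq_le_add (hz i) (hy i) ((norm_sub_rev _ _).trans_le (h i))
  have h3 := mul_le_mul_of_nonneg_left h2 (Nat.cast_nonneg K)
  unfold Dl
  nlinarith

end defect

variable {Γ : Type} [DecidableEq Γ] {P : Fm Γ}

theorem abs_ind_le (E : Set Γ) (x : Γ → ℝ) (a : Γ) : |E.indicator x a| ≤ |x a| := by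
  by_cases h : a ∈ E <;> simp [h]

/-- Restriction to a set of coordinates. -/
noncomputable def rs (E : Set Γ) (x : BX P) : BX P :=
  BX.mk (E.indicator x.val) ⟨‖x‖ ^ 2, fun L hL =>
    (qs_mono L (abs_ind_le E _)).trans (qs_le_norm_sq x hL)⟩

theorem rs_val (E : Set Γ) (x : BX P) : (rs E x).val = E.indicator x.val := rfl

theorem norm_rs_le (E : Set Γ) (x : BX P) : ‖rs E x‖ ≤ ‖x‖ := norm_mono (abs_ind_le E _)

theorem norm_rs_mono {E E' : Set Γ} (h : E ⊆ E') (x : BX P) : ‖rs E x‖ ≤ ‖rs E' x‖ :=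
  norm_mono fun a => by
    by_cases ha : a ∈ E
    · simp [rs_val, ha, h ha]
    · simp [rs_val, ha]

theorem rs_sub (E : Set Γ) (x y : BX P) : rs E x - rs E y = rs E (x - y) :=
  BX.ext (funext fun a => by by_cases ha : a ∈ E <;> simp [rs_val, ha])

theorem norm_rs_union (E E' : Set Γ) (x : BX P) : ‖rs (E ∪ E') x‖ ≤ ‖rs E x‖ + ‖rs E' x‖ := by
  refine le_trans (norm_mono fun a => ?_) (norm_add_le _ _)
  by_cases ha : a ∈ E <;> by_cases ha' : a ∈ E' <;> simp [rs_val, ha, ha']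
  rw [← two_mul, abs_mul, abs_two]
  linarith [abs_nonneg (x.val a)]

theorem Fam.map {L : List (Finset Γ)} (h : Fam P L) {f : Finset Γ → Finset Γ}
    (hf : ∀ F, f F ⊆ F) : Fam P (L.map f) := by
  refine ⟨fun F hF => ?_, ?_⟩
  · obtain ⟨G, hG, rfl⟩ := List.mem_map.1 hF
    exact P.sub (h.1 G hG) (hf G)
  · rw [List.pairwise_map]
    exact h.2.imp fun h => h.mono (hf _) (hf _)

theorem qs_filter (L : List (Finset Γ)) (E : Set Γ) [DecidablePred (· ∈ E)] (x : Γ → ℝ) :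
    qs (L.map fun F => F.filter (· ∈ E)) x = qs L (E.indicator x) := by
  induction L with
  | nil => simp
  | cons F L ih =>
    rw [List.map_cons, qs_cons, qs_cons, ih, mass, mass, sum_filter]
    congr 2
    exact sum_congr rfl fun a _ => by by_cases h : a ∈ E <;> simp [h]

theorem supadd (x : BX P) {L : List (Finset Γ)} (hL : Fam P L) (E : Set Γ)
    (h : ∀ F ∈ L, ∀ a ∈ F, a ∈ E → x.val a = 0) : qs L x.val + ‖rs E x‖ ^ 2 ≤ ‖x‖ ^ 2 := by
  classical
  rw [← le_sub_iff_add_le']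
  refine norm_sq_le _ fun L' hL' => ?_
  have h1 := hL.map (f := fun F => F.filter (· ∈ Eᶜ)) fun _ => filter_subset _ _
  have h2 := hL'.map (f := fun F => F.filter (· ∈ E)) fun _ => filter_subset _ _
  have h3 := qs_le_norm_sq x (L := _ ++ _) ⟨fun F hF => (List.mem_append.1 hF).elim (h1.1 F) (h2.1 F),
    List.pairwise_append.2 ⟨h1.2, h2.2, fun F hF G hG => by
      obtain ⟨F, _, rfl⟩ := List.mem_map.1 hF
      obtain ⟨G, _, rfl⟩ := List.mem_map.1 hG
      exact disjoint_left.2 fun a ha hb => (mem_filter.1 ha).2 (mem_filter.1 hb).2⟩⟩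
  have h4 : qs L (Eᶜ.indicator x.val) = qs L x.val := qs_congr fun F hF =>
    sum_congr rfl fun a ha => by
      by_cases hE : a ∈ E
      · simp [hE, h F hF a ha hE]
      · simp [hE]
  have e1 := qs_filter L Eᶜ x.val
  have e2 := qs_filter L' E x.val
  rw [qs_append] at h3
  rw [rs_val]
  linarith

theorem mass_sum_le {K : ℕ} (F : Finset Γ) (z : Fin K → BX P) :
    mass F (∑ i, z i).val ≤ ∑ i, mass F (z i).val := by
  unfold mass
  rw [sum_comm]
  exact sum_le_sum fun a _ => by rw [val_sum]; exact abs_sum_le_sum_abs _ _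

theorem fl_list {K : ℕ} (z : Fin K → BX P) (i0 i1 : Fin K) (p g : Finset Γ → Prop)
    [DecidablePred p] [DecidablePred g]
    (h : ∀ F, p F → ¬g F → ∃ i, mass F (z i).val = 0) {t : ℝ} (ht : 0 < t)
    (L : List (Finset Γ)) :
    qs L (z i1).val ≤ qs (L.map fun F => if p F then ∅ else F) (z i1).val +
      (1 + t) * qs (L.map fun F => if g F then F else ∅) (z i0).val +
      (1 + 1 / t) * (2 * (K * ∑ i, qs L (z i).val - qs L (∑ i, z i).val)) := by
  induction L with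
  | nil => simp
  | cons F L ih =>
    have h1 : mass F (∑ i, z i).val ^ 2 ≤ (∑ i, mass F (z i).val) ^ 2 :=
      pow_le_pow_left₀ (mass_nonneg _ _) (mass_sum_le F z) 2
    have h2 := sq_sub_le fun i => mass F (z i).val
    have h3 : 0 < 1 / t := by positivity
    have key : mass F (z i1).val ^ 2 ≤ mass (if p F then ∅ else F) (z i1).val ^ 2 +
        (1 + t) * mass (if g F then F else ∅) (z i0).val ^ 2 +
        (1 + 1 / t) * (2 * (K * ∑ i, mass F (z i).val ^ 2 - mass F (∑ i, z i).val ^ 2)) := by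
      have h4 : ∀ i j, (mass F (z i).val - mass F (z j).val) ^ 2 ≤
          2 * (K * ∑ i, mass F (z i).val ^ 2 - mass F (∑ i, z i).val ^ 2) := fun i j => by
        linarith [h2 i j]
      have h5 := (sq_nonneg _).trans (h4 i0 i0)
      have h6 : 0 ≤ (1 + t) * mass (if g F then F else ∅) (z i0).val ^ 2 := by positivity
      by_cases hp : p F
      · by_cases hg : g F
        · have h7 := sq_add_le (mass F (z i0).val) (mass F (z i1).val - mass F (z i0).val) ht
          have h8 := mul_le_mul_of_nonneg_left (h4 i1 i0) (show 0 ≤ 1 + 1 / t by linarith)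
          rw [add_sub_cancel] at h7
          rw [if_pos hg]
          linarith [sq_nonneg (mass (if p F then ∅ else F) (z i1).val)]
        · obtain ⟨i, hi⟩ := h F hp hg
          have h7 := h4 i1 i
          rw [hi, sub_zero] at h7
          nlinarith [sq_nonneg (mass (if p F then ∅ else F) (z i1).val), mul_nonneg h3.le h5]
      · rw [if_neg hp]
        nlinarith [mul_nonneg h3.le h5]
    simp only [List.map_cons, qs_cons, sum_add_distrib]
    linarith

theorem fl {K : ℕ} (z : Fin K → BX P) {i0 i1 : Fin K} (hi : i1 ≠ i0) {D E : Set Γ} (hE : E ⊆ D)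
    (H : ∀ F, P.adm F → ∀ a : Fin K → Γ, (∀ i, a i ∈ F ∧ (z i).val (a i) ≠ 0) → a i1 ∈ D →
      a i0 ∈ D ∧ a i0 ∉ E) {t : ℝ} (ht : 0 < t) :
    ‖rs D (z i1)‖ ^ 2 ≤ (1 + t) * (‖rs D (z i0)‖ ^ 2 - ‖rs E (z i0)‖ ^ 2) +
      (1 + 1 / t) * (2 * Dl z) := by
  classical
  have hc : 0 < 2 * (1 + 1 / t) := by positivity
  suffices h : ‖∑ i, z i‖ ^ 2 ≤ K * ∑ i, ‖z i‖ ^ 2 - (‖rs D (z i1)‖ ^ 2 -
      (1 + t) * (‖rs D (z i0)‖ ^ 2 - ‖rs E (z i0)‖ ^ 2)) / (2 * (1 + 1 / t)) by
    rw [le_sub_comm, div_le_iff₀ hc] at h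
    unfold Dl
    linarith
  refine norm_sq_le _ fun L hL => ?_
  rw [le_sub_comm, div_le_iff₀ hc]
  set p : Finset Γ → Prop := fun F => ∃ m ∈ F, (z i1).val m ≠ 0 ∧ m ∈ D with hp
  set g : Finset Γ → Prop := fun F =>
    ∃ a : Fin K → Γ, (∀ i, a i ∈ F ∧ (z i).val (a i) ≠ 0) ∧ a i1 ∈ D with hg
  have h1 := fl_list z i0 i1 p g (fun F ⟨m, hm, hm1, hm2⟩ hF => by
    by_contra hcon
    have : ∀ i, ∃ a ∈ F, (z i).val a ≠ 0 := fun i => by
      by_contra h
      push Not at h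
      exact hcon ⟨i, sum_eq_zero fun a ha => by rw [h a ha, abs_zero]⟩
    choose a ha ha' using this
    refine hF ⟨Function.update a i1 m, fun i => ?_, by simpa using hm2⟩
    rcases eq_or_ne i i1 with rfl | h
    · simpa using ⟨hm, hm1⟩
    · simpa [h] using ⟨ha i, ha' i⟩) ht L
  have h2 := supadd (z i1) (hL.map (f := fun F => if p F then ∅ else F)
    fun F => by split_ifs <;> simp) D fun F hF a ha hD => by
      obtain ⟨G, _, rfl⟩ := List.mem_map.1 hF
      by_contra h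
      split_ifs at ha with hG
      · simp at ha
      · exact hG ⟨a, ha, h, hD⟩
  have h3 : ∀ F ∈ L.map fun F => if g F then F else ∅, ∀ b ∈ F, (z i0).val b ≠ 0 →
      b ∈ D ∧ b ∉ E := fun F hF b hb hb' => by
    obtain ⟨G, hG, rfl⟩ := List.mem_map.1 hF
    split_ifs at hb with hG'
    · obtain ⟨a, ha, ha'⟩ := hG'
      have := H G (hL.1 G hG) (Function.update a i0 b) (fun i => by
        rcases eq_or_ne i i0 with rfl | h
        · simpa using ⟨hb, hb'⟩
        · simpa [h] using ha i) (by simpa [hi] using ha')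
      simpa using this
    · simp at hb
  have h4 := supadd (rs D (z i0)) (hL.map (f := fun F => if g F then F else ∅)
    fun F => by split_ifs <;> simp) E fun F hF a ha hD => by
      by_cases h : (z i0).val a = 0
      · simp [rs_val, hE hD, h]
      · exact absurd hD (h3 F hF a ha h).2
  have h5 : rs E (rs D (z i0)) = rs E (z i0) := BX.ext (funext fun a => by
    by_cases ha : a ∈ E
    · simp [rs_val, ha, hE ha]
    · simp [rs_val, ha])
  have h6 : qs (L.map fun F => if g F then F else ∅) (rs D (z i0)).val =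
      qs (L.map fun F => if g F then F else ∅) (z i0).val := qs_congr fun F hF =>
    sum_congr rfl fun a ha => by
      by_cases h : (z i0).val a = 0
      · simp [rs_val, Set.indicator, h]
      · simp [rs_val, (h3 F hF a ha h).1]
  rw [h5, h6] at h4
  have h7 : ‖z i1‖ ^ 2 - qs L (z i1).val ≤ ∑ i, ‖z i‖ ^ 2 - ∑ i, qs L (z i).val := by
    rw [← sum_sub_distrib]
    exact single_le_sum (f := fun i => ‖z i‖ ^ 2 - qs L (z i).val)
      (fun i _ => sub_nonneg.2 (qs_le_norm_sq _ hL)) (mem_univ i1)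
  have h8 := sub_nonneg.2 (qs_le_norm_sq (z i1) hL)
  have h9 : (1 : ℝ) ≤ K := by exact_mod_cast i0.pos
  have h10 : 0 < 1 / t := by positivity
  have h11 := mul_le_mul_of_nonneg_left (le_sub_iff_add_le.2 h4) (show 0 ≤ 1 + t by linarith)
  have h12 : 1 ≤ 2 * (1 + 1 / t) * K := by nlinarith
  nlinarith [mul_le_mul_of_nonneg_right h12 (h8.trans h7)]

/-- Pointwise null sequences with vanishing defect are null. -/
def Cor (P : Fm Γ) (K : ℕ) : Prop :=
  ∀ y : ℕ → BX P, (∀ n, ‖y n‖ ≤ 2) → (∀ a, Tendsto (fun n => (y n).val a) atTop (𝓝 0)) →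
    (∀ η > 0, ∃ n0 : ℕ, ∀ p : Fin K → ℕ, (∀ i, n0 ≤ p i) → Dl (fun i => y (p i)) ≤ η) →
    Tendsto y atTop (𝓝 0)

theorem shr_of_cor {K : ℕ} (h : Cor P K) : Shr P := by
  intro φ ε hε
  by_contra hcon
  push Not at hcon
  set τ := ⨅ A : Finset Γ, ‖φ - trunc A φ‖ with hτ
  have hτ0 : 0 < τ := hε.trans_le (le_ciInf fun A => (hcon A).le)
  have hτ1 : ∀ A, τ ≤ ‖φ - trunc A φ‖ := fun A =>
    ciInf_le ⟨0, by rintro _ ⟨A, rfl⟩; exact norm_nonneg _⟩ A
  have hδ : ∀ n : ℕ, (0 : ℝ) < 1 / (n + 1) := fun n => by positivity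
  choose A hA using fun n : ℕ => exists_lt_of_ciInf_lt
    (show ⨅ A : Finset Γ, ‖φ - trunc A φ‖ < τ * (1 + 1 / (n + 1)) by nlinarith [hδ n])
  obtain ⟨s, hs⟩ := exists_rec (X := BX P × Finset Γ)
    (fun n g x => ‖x.1‖ ≤ 1 ∧ τ * (1 - 1 / (n + 1)) ≤ φ x.1 ∧
      ‖x.1 - res P x.2 x.1.val‖ ≤ 1 / (n + 1) ∧
      ∀ a ∈ (range (n + 1)).biUnion A ∪ univ.biUnion fun i => (g i).2, x.1.val a = 0)
    (fun n g => by
      set A' := (range (n + 1)).biUnion A ∪ univ.biUnion fun i => (g i).2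
      obtain ⟨x, hx1, hx2⟩ := (φ - trunc A' φ).exists_lt_apply_of_lt_opNorm
        (show τ * (1 - 1 / (n + 1)) < _ by nlinarith [hδ n, hτ1 A'])
      rw [_root_.sub_apply, trunc_apply, ← map_sub] at hx2
      have h1 := (norm_sub_res_le A' x).trans hx1.le
      have h2 : ∀ a ∈ A', (x - res P A' x.val).val a = 0 := fun a ha => by simp [res_val, ha]
      generalize x - res P A' x.val = w at hx2 h1 h2
      rcases le_abs.1 hx2.le with h3 | h3
      · obtain ⟨B, hB⟩ := exists_res_close w (hδ n)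
        exact ⟨(w, B), h1, h3, hB, h2⟩
      · obtain ⟨B, hB⟩ := exists_res_close (-w) (hδ n)
        exact ⟨(-w, B), by simpa using h1, by simpa using h3, hB, by simpa using h2⟩)
  have hlim := tendsto_one_div_add_atTop_nhds_zero_nat (𝕜 := ℝ)
  have h1 := h (fun n => (s n).1) (fun n => (hs n).1.trans one_le_two) (fun a => ?_) fun η hη => ?_
  · have h2 := (φ.continuous.tendsto 0).comp h1
    have h3 := le_of_tendsto_of_tendsto' ((hlim.const_sub 1).const_mul τ) h2 fun n => (hs n).2.1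
    simp at h3
    linarith
  · by_cases ha : ∃ m, a ∈ (s m).2
    · obtain ⟨m, hm⟩ := ha
      refine tendsto_const_nhds.congr' ((eventually_gt_atTop m).mono fun n hn => ?_)
      exact ((hs n).2.2.2 a (mem_union_right _ (mem_biUnion.2 ⟨⟨m, hn⟩, mem_univ _, hm⟩))).symm
    · refine squeeze_zero_norm (fun n => le_trans ?_ (hs n).2.2.1) hlim
      have := coord_le_norm ((s n).1 - res P (s n).2 (s n).1.val) a
      simpa [res_val, show a ∉ (s n).2 from fun h => ha ⟨n, h⟩] using this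
  · obtain ⟨n, hn⟩ := ((hlim.const_mul (4 * (K : ℝ) ^ 2)).eventually
      (gt_mem_nhds (by simpa using hη))).exists
    refine ⟨n, fun p hp => le_trans ?_ hn.le⟩
    have h2 : (K : ℝ) * (τ * (1 - 1 / (n + 1))) ≤ φ (∑ i, (s (p i)).1) := by
      rw [map_sum]
      simpa using sum_le_sum fun i (_ : i ∈ univ) => le_trans (show τ * (1 - 1 / (n + 1)) ≤ _ by
        have : (n : ℝ) ≤ p i := by exact_mod_cast hp i
        gcongr) (hs (p i)).2.1
    have h3 : res P (A n) (∑ i, (s (p i)).1).val = 0 := BX.ext (funext fun a => by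
      rw [res_val, val_sum]
      split_ifs with ha
      · exact sum_eq_zero fun i _ => (hs (p i)).2.2.2 a (mem_union_left _
          (mem_biUnion.2 ⟨n, mem_range.2 (Nat.lt_succ_of_le (hp i)), ha⟩))
      · rfl)
    have h4 := (le_abs_self _).trans ((φ - trunc (A n) φ).le_opNorm (∑ i, (s (p i)).1))
    rw [_root_.sub_apply, trunc_apply, h3, map_zero, sub_zero] at h4
    have h5 : ∑ i, ‖(s (p i)).1‖ ^ 2 ≤ K := by
      simpa using sum_le_sum fun i (_ : i ∈ univ) =>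
        pow_le_one₀ (n := 2) (norm_nonneg _) (hs (p i)).1
    have h6 : ‖∑ i, (s (p i)).1‖ ≤ K :=
      (norm_sum_le _ _).trans (by simpa using sum_le_sum fun i (_ : i ∈ univ) => (hs (p i)).1)
    have h7 := mul_le_mul_of_nonneg_right (hA n).le (norm_nonneg (∑ i, (s (p i)).1))
    have h8 : (K : ℝ) * (1 - 1 / (n + 1)) ≤ (1 + 1 / (n + 1)) * ‖∑ i, (s (p i)).1‖ :=
      le_of_mul_le_mul_left (by nlinarith) hτ0
    have h9 : (0 : ℝ) ≤ K := Nat.cast_nonneg K
    have h10 := mul_le_mul_of_nonneg_left h6 (hδ n).le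
    unfold Dl
    nlinarith [sq_nonneg (‖∑ i, (s (p i)).1‖ - K), mul_le_mul_of_nonneg_left h5 h9,
      mul_le_mul_of_nonneg_left (show (K : ℝ) * (1 - 2 * (1 / (n + 1))) ≤ ‖∑ i, (s (p i)).1‖ by
        linarith) h9]

end Fl

section Core


open Finset Filter Topology

section neg

variable {Γ : Type} [DecidableEq Γ] {P : Fm Γ} {y : ℕ → BX P}

/-- The sequence is null on `E`. -/
def Neg (y : ℕ → BX P) (E : Set Γ) : Prop := Tendsto (fun n => ‖rs E (y n)‖) atTop (𝓝 0)

theorem Neg.mono {E E' : Set Γ} (h : Neg y E') (hE : E ⊆ E') : Neg y E :=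
  squeeze_zero (fun _ => norm_nonneg _) (fun _ => norm_rs_mono hE _) h

theorem Neg.union {E E' : Set Γ} (h : Neg y E) (h' : Neg y E') : Neg y (E ∪ E') :=
  squeeze_zero (fun _ => norm_nonneg _) (fun _ => norm_rs_union _ _ _) (by simpa using h.add h')

theorem neg_empty : Neg y ∅ :=
  tendsto_const_nhds.congr fun n => by
    rw [show rs ∅ (y n) = 0 from BX.ext (by simp [rs_val]; rfl), norm_zero]

theorem neg_biUnion {ι : Type} (B : Finset ι) {f : ι → Set Γ} (h : ∀ b ∈ B, Neg y (f b)) :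
    Neg y (⋃ b ∈ B, f b) := by
  classical
  induction B using Finset.induction_on with
  | empty => simpa using neg_empty
  | insert b B _ ih =>
    rw [set_biUnion_insert]
    exact (h b (mem_insert_self _ _)).union (ih fun c hc => h c (mem_insert_of_mem hc))

theorem neg_finset (hp : ∀ a, Tendsto (fun n => (y n).val a) atTop (𝓝 0)) (B : Finset Γ) :
    Neg y B := by
  refine (neg_biUnion B (f := fun b => {b}) fun b _ => ?_).mono fun b hb => by simpa using hb
  refine squeeze_zero (fun _ => norm_nonneg _) (fun n => ?_) (by simpa using (hp b).abs)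
  simpa [mass, rs_val] using norm_le_mass (rs {b} (y n)) (A := {b}) fun S hS => by
    simp [rs_val, Set.indicator, show S ≠ b by simpa using hS]

end neg

variable {I : Type} [LinearOrder I] [OrderTop I]

/-- The order of the leaves. -/
def Pr (a b : I × Finset I) : Prop := a.1 < b.1 ∧ a.1 ∈ a.2 ∧ a.2 ⊆ b.2

/-- The least element of `S` above `θ`. -/
def jn (S : Finset I) (θ : I) : I := (S.filter (θ ≤ ·)).inf id

/-- All joins in `u` are `σ`. -/
def Mono (σ : I) (u : Finset (I × Finset I)) : Prop := ∀ a ∈ u, ∀ b ∈ u, Pr a b → jn a.2 b.1 = σ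

/-- Chains. -/
def Ch (F : Finset (I × Finset I)) : Prop := ∀ a ∈ F, ∀ b ∈ F, a ≠ b → Pr a b ∨ Pr b a

variable (I) in
/-- The family. -/
def fam (k : ℕ) : Fm (I × Finset I) where
  adm F := Ch F ∧ ∀ σ, ∀ u ⊆ F, Mono σ u → u.card ≤ k + 1
  sub h hG := ⟨fun a ha b hb => h.1 a (hG ha) b (hG hb), fun σ u hu => h.2 σ u (hu.trans hG)⟩
  one a := ⟨fun b hb c hc h => absurd ((mem_singleton.1 hb).trans (mem_singleton.1 hc).symm) h,
    fun _ _ hu _ => (card_le_card hu).trans (by simp)⟩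

variable {k : ℕ}

theorem comb {F : Finset (I × Finset I)} (hF : (fam I k).adm F) {l : I}
    {a : Fin (k + 2) → I × Finset I} (ha : ∀ i, a i ∈ F) (hl : (a (Fin.last _)).1 ≤ l)
    (h1 : ∀ i j, i < j → ¬(a j = a i ∨ Pr (a j) (a i)))
    (h2 : ∀ i j, i < j → ∀ θ ∈ (a i).2, θ < l → θ < (a j).1) :
    (a 0).1 ≤ l ∧ ∃ j, 0 < j ∧ (a j).1 ≤ l ∧ jn (a j).2 l < jn (a 0).2 l := by
  have h3 : ∀ i j, i < j → Pr (a i) (a j) := fun i j h =>
    (hF.1 _ (ha i) _ (ha j) fun e => h1 i j h (Or.inl e.symm)).resolve_right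
      fun e => h1 i j h (Or.inr e)
  have h4 : StrictMono fun i => (a i).1 := fun i j h => (h3 i j h).1
  have h5 : ∀ i, (a i).1 ≤ l := fun i => (h4.monotone (Fin.le_last i)).trans hl
  refine ⟨h5 0, ?_⟩
  by_contra hcon
  push Not at hcon
  have h6 : ∀ j, jn (a j).2 l = jn (a 0).2 l := fun j => by
    rcases (Fin.zero_le j).eq_or_lt with rfl | h
    · rfl
    · exact le_antisymm (inf_mono (filter_subset_filter _ (h3 0 j h).2.2)) (hcon j h (h5 j))
  have h7 := hF.2 (jn (a 0).2 l) (univ.image a) (image_subset_iff.2 fun i _ => ha i) (by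
    intro b hb c hc h
    obtain ⟨i, _, rfl⟩ := mem_image.1 hb
    obtain ⟨j, _, rfl⟩ := mem_image.1 hc
    rw [← h6 i, jn, jn]
    congr 1
    exact filter_congr fun θ hθ => ⟨fun h' => not_lt.1 fun h'' =>
      not_lt.2 h' (h2 i j (h4.lt_iff_lt.1 h.1) θ hθ h''), (h5 j).trans⟩)
  rw [card_image_of_injective _ (Function.Injective.of_comp (f := Prod.fst) h4.injective)] at h7
  simp at h7

theorem step {y : ℕ → BX (fam I k)} (hb : ∀ n, ‖y n‖ ≤ 2)
    (hp : ∀ a, Tendsto (fun n => (y n).val a) atTop (𝓝 0))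
    (hD : ∀ η > 0, ∃ n0 : ℕ, ∀ p : Fin (k + 2) → ℕ, (∀ i, n0 ≤ p i) → Dl (fun i => y (p i)) ≤ η)
    {l : I} (ih : ∀ θ < l, Neg y {a | a.1 ≤ θ}) {E : Set (I × Finset I)} (hE : E ⊆ {a | a.1 ≤ l})
    (hκ : ∀ b ∈ E, Neg y {a | a.1 ≤ l ∧ jn a.2 l < jn b.2 l}) : Neg y E := by
  classical
  set D : Set (I × Finset I) := {a | a.1 ≤ l}
  set bad : I × Finset I → Set (I × Finset I) := fun b => ({m | m = b ∨ Pr m b} ∪
    ⋃ θ ∈ b.2.filter (· < l), {m | m.1 ≤ θ}) ∪ {m | b ∈ E ∧ m.1 ≤ l ∧ jn m.2 l < jn b.2 l}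
    with hbd
  have hbad : ∀ b, Neg y (bad b) := fun b => by
    refine (Neg.union ?_ (neg_biUnion _ fun θ hθ => ih θ (mem_filter.1 hθ).2)).union ?_
    · refine (neg_finset hp (insert b (b.2 ×ˢ b.2.powerset))).mono fun m hm => ?_
      rcases hm with rfl | hm
      · simp
      · exact mem_coe.2 (mem_insert_of_mem (mem_product.2 ⟨hm.2.2 hm.2.1, mem_powerset.2 hm.2.2⟩))
    · by_cases h : b ∈ E
      · exact (hκ b h).mono fun m hm => hm.2
      · exact neg_empty.mono fun m hm => h hm.1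
  by_contra hcon
  obtain ⟨e, he, hfr⟩ : ∃ e > 0, ∃ᶠ n in atTop, e ≤ ‖rs E (y n)‖ := by
    by_contra h
    push Not at h
    exact hcon (Metric.tendsto_nhds.2 fun e he => by simpa using h e he)
  have key : ∀ c ≤ 4, (∀ᶠ n in atTop, ‖rs D (y n)‖ ^ 2 ≤ c) →
      ∀ᶠ n in atTop, ‖rs D (y n)‖ ^ 2 ≤ c - e ^ 2 / 2 := by
    intro c hc4 hc
    by_contra hc'
    rw [not_eventually] at hc'
    obtain ⟨t, ht⟩ : ∃ t, t = e ^ 2 / 16 := ⟨_, rfl⟩
    have ht0 : 0 < t := by rw [ht]; positivity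
    obtain ⟨C, hC⟩ : ∃ C, C = 8 + 16 * (1 + t) +
      (1 + 1 / t) * (2 * (1 + 16 * ((k + 2 : ℕ) : ℝ) ^ 2)) := ⟨_, rfl⟩
    have hC0 : 0 < C := by rw [hC]; positivity
    obtain ⟨η, hη, hηC⟩ : ∃ η, 0 < η ∧ C * η = e ^ 2 / 4 :=
      ⟨e ^ 2 / 4 / C, by positivity, by field_simp⟩
    obtain ⟨n0, hn0⟩ := hD η hη
    obtain ⟨s, hs⟩ := exists_rec (X := ℕ × Finset (I × Finset I))
      (fun i g x => n0 ≤ x.1 ∧ ‖y x.1 - res _ x.2 (y x.1).val‖ ≤ 2 * η ∧
        (∀ j, ∀ b ∈ (g j).2, ∀ m ∈ x.2, m ∉ bad b) ∧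
        (i = 0 → e ≤ ‖rs E (y x.1)‖ ∧ ‖rs D (y x.1)‖ ^ 2 ≤ c) ∧
        (i ≠ 0 → ¬‖rs D (y x.1)‖ ^ 2 ≤ c - e ^ 2 / 2)) (fun i g => by
      set U := ⋃ b ∈ univ.biUnion fun j => (g j).2, bad b with hU
      have h1 : ∃ᶠ n in atTop, (i = 0 → e ≤ ‖rs E (y n)‖ ∧ ‖rs D (y n)‖ ^ 2 ≤ c) ∧
          (i ≠ 0 → ¬‖rs D (y n)‖ ^ 2 ≤ c - e ^ 2 / 2) := by
        by_cases hi : i = 0
        · exact (hfr.and_eventually hc).mono fun n hn => ⟨fun _ => hn, fun h => absurd hi h⟩
        · exact hc'.mono fun n hn => ⟨fun h => absurd h hi, fun _ => hn⟩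
      obtain ⟨n, h2, h3, h4⟩ := (h1.and_eventually ((eventually_ge_atTop n0).and
        ((neg_biUnion _ fun b _ => hbad b : Neg y U).eventually (ge_mem_nhds hη)))).exists
      obtain ⟨B, hB⟩ := exists_res_close (y n) hη
      refine ⟨(n, B.filter (· ∉ U)), h3, ?_, fun j b hb m hm h => (mem_filter.1 hm).2
        (Set.mem_biUnion (mem_coe.2 (mem_biUnion.2 ⟨j, mem_univ _, hb⟩)) h), h2⟩
      refine (norm_mono (y := y n - res _ B (y n).val + rs U (y n)) fun a => ?_).trans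
        ((norm_add_le _ _).trans (by linarith))
      by_cases ha : a ∈ B <;> by_cases ha' : a ∈ U <;> simp [rs_val, res_val, ha, ha']
      rw [← two_mul, abs_mul, abs_two]
      linarith [abs_nonneg ((y n).val a)])
    set z : Fin (k + 2) → BX (fam I k) := fun i => res _ (s i).2 (y (s i).1).val with hz
    have hz2 : ∀ i, ‖z i‖ ≤ 2 := fun i => (norm_res_le _ _).trans (hb _)
    have h1 := fl z (i0 := 0) (i1 := Fin.last _) (Fin.last_pos.ne') hE (fun F hF a ha hl => by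
      have h2 : ∀ i : Fin (k + 2), a i ∈ (s i).2 := fun i => by
        by_contra h
        exact (ha i).2 (by simp [hz, res_val, h])
      have h3 : ∀ i j : Fin (k + 2), i < j → a j ∉ bad (a i) := fun i j h =>
        (hs j).2.2.1 ⟨i, h⟩ _ (h2 i) _ (h2 j)
      obtain ⟨h4, j, hj, h5⟩ := comb hF (fun i => (ha i).1) hl
        (fun i j h h' => h3 i j h (Or.inl (Or.inl h')))
        (fun i j h θ hθ hθ' => not_le.1 fun h' => h3 i j h (Or.inl (Or.inr
          (Set.mem_biUnion (mem_coe.2 (mem_filter.2 ⟨hθ, hθ'⟩)) h'))))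
      exact ⟨h4, fun h => h3 0 j hj (Or.inr ⟨h, h5⟩)⟩) ht0
    have h2 := Dl_le (fun i => hb (s i).1) hz2 fun i => (hs i).2.1
    have h3 := hn0 (fun i => (s i).1) fun i => (hs i).1
    have h4 : ∀ (A : Set (I × Finset I)) (i : Fin (k + 2)),
        ‖rs A (y (s i).1) - rs A (z i)‖ ≤ 2 * η := fun A i => by
      rw [rs_sub]; exact (norm_rs_le _ _).trans (hs i).2.1
    have h5 := fun A i => norm_sq_le_add ((norm_rs_le _ _).trans (hb _))
      ((norm_rs_le _ _).trans (hz2 _)) (h4 A i)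
    have h6 := norm_sq_le_add ((norm_rs_le _ _).trans (hz2 _)) ((norm_rs_le _ _).trans (hb _))
      ((norm_sub_rev _ _).trans_le (h4 D 0))
    obtain ⟨h7, h8⟩ := (hs (0 : Fin (k + 2))).2.2.2.1 rfl
    have h9 := pow_le_pow_left₀ he.le h7 2
    have h10 := mul_le_mul_of_nonneg_left (show ‖rs D (z 0)‖ ^ 2 - ‖rs E (z 0)‖ ^ 2 ≤
      c - e ^ 2 + 16 * η by linarith [h5 E 0]) (show 0 ≤ 1 + t by linarith)
    have h11 := mul_le_mul_of_nonneg_left (show 2 * Dl z ≤
      2 * (1 + 16 * ((k + 2 : ℕ) : ℝ) ^ 2) * η by linarith) (show 0 ≤ 1 + 1 / t by positivity)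
    have h12 := mul_le_mul_of_nonneg_left (show c - e ^ 2 ≤ 4 by nlinarith) ht0.le
    refine (hs (Fin.last (k + 1))).2.2.2.2 (by simp) ?_
    rw [hC] at hηC
    linarith [h5 D (Fin.last _)]
  have h1 : ∀ j : ℕ, ∀ᶠ n in atTop, ‖rs D (y n)‖ ^ 2 ≤ 4 - j * (e ^ 2 / 2) := fun j => by
    induction j with
    | zero =>
      refine Eventually.of_forall fun n => ?_
      push_cast
      nlinarith [(norm_rs_le D _).trans (hb n), norm_nonneg (rs D (y n))]
    | succ j h =>
      refine (key _ (sub_le_self _ (by positivity)) h).mono fun n hn => ?_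
      push_cast
      linarith
  obtain ⟨j, hj⟩ := exists_nat_gt (4 / (e ^ 2 / 2))
  obtain ⟨n, hn⟩ := (h1 j).exists
  rw [div_lt_iff₀ (by positivity)] at hj
  linarith [sq_nonneg ‖rs D (y n)‖]

theorem core [WellFoundedLT I] : Cor (fam I k) (k + 2) := by
  intro y hb hp hD
  have h : ∀ l : I, Neg y {a | a.1 ≤ l} := fun l => by
    induction l using WellFoundedLT.induction with
    | ind l ih =>
      have h1 : ∀ κ : I, Neg y {a | a.1 ≤ l ∧ jn a.2 l < κ} := fun κ => by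
        induction κ using WellFoundedLT.induction with
        | ind κ ih' => exact step hb hp hD ih (fun _ h => h.1) fun b hb => ih' _ hb.2
      exact step hb hp hD ih subset_rfl fun b _ => h1 _
  rw [tendsto_zero_iff_norm_tendsto_zero]
  refine (h ⊤).congr fun n => ?_
  rw [show rs {a : I × Finset I | a.1 ≤ ⊤} (y n) = y n from BX.ext (by simp [rs_val])]

end Core

section Rot


open Finset Filter Topology

variable {Γ : Type} [DecidableEq Γ] {P : Fm Γ}

theorem sum_sq_le (A : Finset Γ) (x : BX P) : ∑ a ∈ A, x.val a ^ 2 ≤ ‖x‖ ^ 2 := by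
  have h := qs_le_norm_sq x (L := A.toList.map fun a => {a}) ⟨fun F hF => by
    obtain ⟨a, _, rfl⟩ := List.mem_map.1 hF
    exact P.one a, List.pairwise_map.2 (A.nodup_toList.imp fun h => disjoint_singleton.2 h)⟩
  simpa [qs, mass, Function.comp_def] using h

/-- The tail outside a finite set. -/
def tl (A : Finset Γ) : BX P →ₗ[ℝ] BX P where
  toFun x := x - res P A x.val
  map_add' x y := BX.ext (funext fun a => by by_cases h : a ∈ A <;> simp [res_val, h])
  map_smul' c x := BX.ext (funext fun a => by by_cases h : a ∈ A <;> simp [res_val, h])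

theorem tl_apply (A : Finset Γ) (x : BX P) : tl A x = x - res P A x.val := rfl

theorem norm_tl_le (A : Finset Γ) (x : BX P) : ‖tl A x‖ ≤ ‖x‖ := norm_sub_res_le A x

/-- Head and tail. -/
noncomputable def RR (m : ℕ) (A : Finset Γ) (x : BX P) : ℝ :=
  ∑ a ∈ A, x.val a ^ 2 + 1 / (m + 1) * ‖tl A x‖ ^ 2

/-- The best head of size at most `m`. -/
noncomputable def PP (m : ℕ) (x : BX P) : ℝ := ⨆ A : {A : Finset Γ // A.card ≤ m}, RR m A.1 x

/-- The square of the new norm. -/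
noncomputable def QN (x : BX P) : ℝ := ∑' m : ℕ, (1 / 2) ^ m * PP m x

instance (m : ℕ) : Nonempty {A : Finset Γ // A.card ≤ m} := ⟨⟨∅, by simp⟩⟩

theorem tail_le (m : ℕ) (A : Finset Γ) (x : BX P) :
    1 / (m + 1) * ‖tl A x‖ ^ 2 ≤ 1 / (m + 1) * ‖x‖ ^ 2 := by
  gcongr
  exact norm_tl_le A x

theorem RR_le (m : ℕ) (A : Finset Γ) (x : BX P) : RR m A x ≤ 2 * ‖x‖ ^ 2 := by
  have h1 : 1 / ((m : ℝ) + 1) * ‖x‖ ^ 2 ≤ ‖x‖ ^ 2 := mul_le_of_le_one_left (sq_nonneg _)
    (by rw [div_le_one (by positivity)]; linarith [Nat.cast_nonneg (α := ℝ) m])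
  unfold RR
  linarith [sum_sq_le A x, tail_le m A x]

theorem le_PP {m : ℕ} {A : Finset Γ} (h : A.card ≤ m) (x : BX P) : RR m A x ≤ PP m x :=
  le_ciSup (f := fun A : {A : Finset Γ // A.card ≤ m} => RR m A.1 x)
    ⟨_, by rintro _ ⟨A, rfl⟩; exact RR_le m _ x⟩ ⟨A, h⟩

theorem PP_le {m : ℕ} {x : BX P} {c : ℝ} (h : ∀ A : Finset Γ, A.card ≤ m → RR m A x ≤ c) :
    PP m x ≤ c := ciSup_le fun A => h A.1 A.2

theorem PP_nonneg (m : ℕ) (x : BX P) : 0 ≤ PP m x :=
  le_trans (by unfold RR; positivity) (le_PP (A := ∅) (by simp) x)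

theorem term_le (m : ℕ) (x : BX P) : (1 / 2) ^ m * PP m x ≤ (1 / 2) ^ m * (2 * ‖x‖ ^ 2) :=
  mul_le_mul_of_nonneg_left (PP_le fun A _ => RR_le m A x) (by positivity)

theorem summ (x : BX P) : Summable fun m : ℕ => (1 / 2 : ℝ) ^ m * PP m x :=
  Summable.of_nonneg_of_le (fun m => mul_nonneg (by positivity) (PP_nonneg m x))
    (fun m => term_le m x) (summable_geometric_two.mul_right _)

theorem le_QN (x : BX P) : ‖x‖ ^ 2 ≤ QN x := by
  refine le_trans ?_ ((summ x).le_tsum 0 fun m _ => mul_nonneg (by positivity) (PP_nonneg m x))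
  have h : res P ∅ x.val = 0 := BX.ext (funext fun a => by simp [res_val])
  simpa [RR, tl_apply, h] using le_PP (m := 0) (A := ∅) (by simp) x

theorem QN_le (x : BX P) : QN x ≤ (2 * ‖x‖) ^ 2 := by
  refine ((summ x).tsum_le_tsum (fun m => term_le m x)
    (summable_geometric_two.mul_right _)).trans (le_of_eq ?_)
  rw [tsum_mul_right, tsum_geometric_two]
  ring

theorem QN_smul (c : ℝ) (x : BX P) : QN (c • x) = c ^ 2 * QN x := by
  unfold QN PP
  rw [← tsum_mul_left]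
  refine tsum_congr fun m => ?_
  rw [mul_left_comm, Real.mul_iSup_of_nonneg (sq_nonneg c)]
  congr 2
  funext A
  simp only [RR, map_smul, norm_smul, BX.val_smul, Pi.smul_apply, smul_eq_mul, mul_pow,
    Real.norm_eq_abs, sq_abs, ← mul_sum]
  ring

theorem QN_add (x y : BX P) {t : ℝ} (ht : 0 < t) :
    QN (x + y) ≤ (1 + t) * QN x + (1 + 1 / t) * QN y := by
  unfold QN
  rw [← tsum_mul_left, ← tsum_mul_left,
    ← Summable.tsum_add ((summ x).mul_left _) ((summ y).mul_left _)]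
  refine (summ _).tsum_le_tsum (fun m => ?_) (((summ x).mul_left _).add ((summ y).mul_left _))
  have h : PP m (x + y) ≤ (1 + t) * PP m x + (1 + 1 / t) * PP m y := PP_le fun A hA => by
    have h1 := mul_le_mul_of_nonneg_left (le_PP hA x) (show 0 ≤ 1 + t by linarith)
    have h2 := mul_le_mul_of_nonneg_left (le_PP hA y) (show 0 ≤ 1 + 1 / t by positivity)
    have h3 : ∑ a ∈ A, (x + y).val a ^ 2 ≤
        (1 + t) * ∑ a ∈ A, x.val a ^ 2 + (1 + 1 / t) * ∑ a ∈ A, y.val a ^ 2 := by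
      rw [mul_sum, mul_sum, ← sum_add_distrib]
      exact sum_le_sum fun a _ => sq_add_le _ _ ht
    have h4 : ‖tl A (x + y)‖ ^ 2 ≤ (1 + t) * ‖tl A x‖ ^ 2 + (1 + 1 / t) * ‖tl A y‖ ^ 2 := by
      rw [map_add]
      exact (pow_le_pow_left₀ (norm_nonneg _) (norm_add_le _ _) 2).trans (sq_add_le _ _ ht)
    have h5 := mul_le_mul_of_nonneg_left h4 (show 0 ≤ 1 / ((m : ℝ) + 1) by positivity)
    unfold RR at h1 h2 ⊢
    linarith
  nlinarith [mul_le_mul_of_nonneg_left h (show (0 : ℝ) ≤ (1 / 2) ^ m by positivity)]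

theorem sqrt_QN_add (x y : BX P) : √(QN (x + y)) ≤ √(QN x) + √(QN y) := by
  rcases eq_or_ne x 0 with rfl | hx
  · rw [zero_add]; linarith [Real.sqrt_nonneg (QN (0 : BX P))]
  rcases eq_or_ne y 0 with rfl | hy
  · rw [add_zero]; linarith [Real.sqrt_nonneg (QN (0 : BX P))]
  have hx' : 0 < QN x := (pow_pos (norm_pos_iff.2 hx) 2).trans_le (le_QN x)
  have hy' : 0 < QN y := (pow_pos (norm_pos_iff.2 hy) 2).trans_le (le_QN y)
  have ha := Real.sqrt_pos.2 hx'
  have hb := Real.sqrt_pos.2 hy'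
  have h := QN_add x y (div_pos hb ha)
  rw [← Real.sq_sqrt hx'.le, ← Real.sq_sqrt hy'.le] at h
  simp only [Real.sqrt_sq ha.le, Real.sqrt_sq hb.le] at h
  refine Real.sqrt_le_iff.2 ⟨by positivity, h.trans (le_of_eq ?_)⟩
  field_simp
  ring

theorem swap {m : ℕ} {A : Finset Γ} (hA : A.card ≤ m) {x : BX P} (hx : ‖x‖ ≤ 1) {a : Γ}
    (ha : a ∉ A) : x.val a ^ 2 ≤ PP m x - RR m A x + 2 * (1 / (m + 1)) := by
  have h0 : ‖x‖ ^ 2 ≤ 1 := pow_le_one₀ (norm_nonneg _) hx
  have h1 : (0 : ℝ) < 1 / (m + 1) := by positivity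
  have h2 := (tail_le m A x).trans (mul_le_of_le_one_right h1.le h0)
  have h3 : ∀ B : Finset Γ, B.card ≤ m → ∑ a ∈ B, x.val a ^ 2 ≤ PP m x := fun B hB =>
    le_trans (le_add_of_nonneg_right (by positivity)) (le_PP hB x)
  have h4 := sum_insert (f := fun a => x.val a ^ 2) ha
  unfold RR
  rcases hA.eq_or_lt with h | h
  · obtain ⟨b, hb, hb'⟩ := exists_le_of_sum_le (s := insert a A) (f := fun a => x.val a ^ 2)
      (g := fun _ => 1 / ((m : ℝ) + 1)) (insert_nonempty _ _) (by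
        rw [sum_const, card_insert_of_notMem ha, h, nsmul_eq_mul]
        push_cast
        rw [mul_one_div_cancel (by positivity)]
        exact (sum_sq_le _ x).trans h0)
    have h5 := h3 ((insert a A).erase b) (by
      rw [card_erase_of_mem hb, card_insert_of_notMem ha]; omega)
    have h6 := add_sum_erase _ (fun a => x.val a ^ 2) hb
    linarith
  · have h5 := h3 (insert a A) (by rw [card_insert_of_notMem ha]; omega)
    linarith

variable {K : ℕ}

theorem RR_sum (m : ℕ) (A : Finset Γ) (x : Fin K → BX P) :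
    K * ∑ i, RR m A (x i) - RR m A (∑ i, x i) =
      ∑ a ∈ A, (K * ∑ i, (x i).val a ^ 2 - (∑ i, (x i).val a) ^ 2) +
        1 / (m + 1) * Dl fun i => tl A (x i) := by
  simp only [RR, Dl, sum_add_distrib, sum_sub_distrib, map_sum, val_sum, ← mul_sum]
  rw [sum_comm]
  ring

theorem near (m : ℕ) (x : Fin (K + 1) → BX P) (hx : ∀ i, QN (x i) = 1) {E : ℝ}
    (hE : 2 ^ m * ((K + 1 : ℕ) ^ 2 - QN (∑ i, x i)) < E) :
    ∃ A : Finset Γ, A.card ≤ m ∧ (∀ i, ∀ a ∉ A, (x i).val a ^ 2 ≤ E + 2 * (1 / (m + 1))) ∧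
      (∀ a ∈ A, ∀ i j, ((x i).val a - (x j).val a) ^ 2 ≤ 2 * E) ∧
      Dl (fun i => tl A (x i)) ≤ (m + 1) * E := by
  have hK : (1 : ℝ) ≤ (K + 1 : ℕ) := by exact_mod_cast Nat.succ_pos K
  have h0 : ∀ (A : Finset Γ) (a : Γ), (0 : ℝ) ≤ (K + 1 : ℕ) * ∑ i, (x i).val a ^ 2 -
      (∑ i, (x i).val a) ^ 2 := fun _ a => sub_nonneg.2 (sq_sum_le _)
  have h1 : ∀ n, 0 ≤ (K + 1 : ℕ) * ∑ i, PP n (x i) - PP n (∑ i, x i) := fun n =>
    sub_nonneg.2 (PP_le fun A hA => by
      have h2 := RR_sum n A x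
      have h3 := sum_nonneg fun a (_ : a ∈ A) => h0 A a
      have h4 := mul_nonneg (show (0 : ℝ) ≤ 1 / (n + 1) by positivity)
        (Dl_nonneg fun i => tl A (x i))
      have h5 := mul_le_mul_of_nonneg_left (sum_le_sum fun i (_ : i ∈ univ) => le_PP hA (x i))
        (zero_le_one.trans hK)
      linarith)
  have h2 := le_hasSum (((hasSum_sum fun i (_ : i ∈ univ) => (summ (x i)).hasSum).mul_left
    ((K + 1 : ℕ) : ℝ)).sub (summ (∑ i, x i)).hasSum) m fun n _ => by
      rw [← mul_sum, mul_left_comm, ← mul_sub]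
      exact mul_nonneg (by positivity) (h1 n)
  change _ ≤ _ * ∑ i, QN (x i) - QN _ at h2
  simp only [hx, sum_const, card_univ, Fintype.card_fin, nsmul_eq_mul, mul_one] at h2
  rw [← mul_sum, mul_left_comm, ← mul_sub, ← sq] at h2
  have h3 := mul_le_mul_of_nonneg_left h2 (show (0 : ℝ) ≤ 2 ^ m by positivity)
  rw [← mul_assoc, ← mul_pow, mul_one_div_cancel two_ne_zero, one_pow, one_mul] at h3
  obtain ⟨⟨A, hA⟩, h4⟩ := exists_lt_of_lt_ciSup (show (K + 1 : ℕ) * ∑ i, PP m (x i) - E <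
    ⨆ A : {A : Finset Γ // A.card ≤ m}, RR m A.1 (∑ i, x i) by
      change _ < PP m _
      linarith)
  have h5 := RR_sum m A x
  have h6 := sum_nonneg fun a (_ : a ∈ A) => h0 A a
  have h7 := mul_nonneg (show (0 : ℝ) ≤ 1 / (m + 1) by positivity) (Dl_nonneg fun i => tl A (x i))
  have h8 : 0 ≤ ∑ i, PP m (x i) - ∑ i, RR m A (x i) :=
    sub_nonneg.2 (sum_le_sum fun i _ => le_PP hA _)
  have h9 := mul_le_mul_of_nonneg_right hK h8
  simp only at h4
  refine ⟨A, hA, fun i a ha => ?_, fun a ha i j => ?_, ?_⟩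
  · have h10 := single_le_sum (f := fun i => PP m (x i) - RR m A (x i))
      (fun i _ => sub_nonneg.2 (le_PP hA _)) (mem_univ i)
    rw [sum_sub_distrib] at h10
    have h11 := swap hA (x := x i) (abs_le_of_sq_le_sq' ((le_QN _).trans_eq
      ((hx i).trans (one_pow 2).symm)) zero_le_one).2 ha
    linarith
  · have h10 := single_le_sum (fun a _ => h0 A a) ha
    linarith [sq_sub_le (fun i => (x i).val a) i j]
  · rw [← div_le_iff₀' (by positivity), div_eq_mul_one_div, mul_comm]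
    linarith

theorem tendsto_qs {s : ℕ → Γ → ℝ} {x : Γ → ℝ}
    (h : ∀ a, Tendsto (fun n => s n a) atTop (𝓝 (x a))) (L : List (Finset Γ)) :
    Tendsto (fun n => qs L (s n)) atTop (𝓝 (qs L x)) := by
  induction L with
  | nil => simp
  | cons F L ih =>
    simp only [qs_cons]
    exact ((tendsto_finsetSum F fun a _ => (h a).abs).pow 2).add ih

theorem mass_le_card {A : Finset Γ} {x : Γ → ℝ} {c : ℝ} {r : ℕ} (hA : A.card ≤ r) (hc : 0 ≤ c)
    (h : ∀ a ∈ A, |x a| ≤ c) : mass A x ≤ r * c :=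
  (sum_le_card_nsmul _ _ _ h).trans (by rw [nsmul_eq_mul]; gcongr)

theorem rot (hc : Cor P (K + 2)) (s : ℕ → BX P) (hs : ∀ n, √(QN (s n)) = 1)
    (h : Tendsto (fun p : Fin (K + 2) → ℕ => √(QN (∑ i, s (p i)))) atTop (𝓝 (K + 2 : ℕ))) :
    ∃ x, Tendsto s atTop (𝓝 x) := by
  have hs1 : ∀ n, QN (s n) = 1 := fun n => Real.sqrt_eq_one.1 (hs n)
  have hs2 : ∀ n, ‖s n‖ ≤ 1 := fun n => (abs_le_of_sq_le_sq' ((le_QN _).trans_eq
    ((hs1 n).trans (one_pow 2).symm)) zero_le_one).2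
  have A1 : ∀ m : ℕ, ∀ E > 0, ∃ n0 : ℕ, ∀ p : Fin (K + 2) → ℕ, (∀ i, n0 ≤ p i) →
      2 ^ m * ((K + 2 : ℕ) ^ 2 - QN (∑ i, s (p i))) < E := fun m E hE => by
    obtain ⟨p0, hp0⟩ := eventually_atTop.1 ((((h.pow 2).const_sub (((K + 2 : ℕ) : ℝ) ^ 2)).const_mul
      (2 ^ m)).eventually (gt_mem_nhds (by simpa using hE)))
    refine ⟨univ.sup p0, fun p hp => ?_⟩
    have := hp0 p fun i => (le_sup (mem_univ i)).trans (hp i)
    rwa [Real.sq_sqrt ((sq_nonneg _).trans (le_QN _))] at this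
  have hm : ∀ β : ℝ, 0 < β → ∃ m : ℕ, 2 * (1 / ((m : ℝ) + 1)) ≤ β := fun β hβ => by
    obtain ⟨m, hm⟩ := exists_nat_one_div_lt (half_pos hβ)
    exact ⟨m, by linarith⟩
  have A2 : ∀ ε > 0, ∃ n0 : ℕ, ∀ n ≥ n0, ∀ n' ≥ n0, ∀ a, |(s n).val a - (s n').val a| ≤ ε := by
    intro ε hε
    obtain ⟨m, hm⟩ := hm (ε ^ 2 / 8) (by positivity)
    obtain ⟨n0, h0⟩ := A1 m (ε ^ 2 / 8) (by positivity)
    refine ⟨n0, fun n hn n' hn' a => ?_⟩
    obtain ⟨A, _, h1, h2, _⟩ := near m _ (fun i => hs1 _)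
      (h0 (fun i => if i = 0 then n else n') fun i => by split_ifs <;> assumption)
    refine abs_le.2 (abs_le_of_sq_le_sq' ?_ hε.le)
    by_cases ha : a ∈ A
    · have := h2 a ha 0 1
      simp only [if_true, one_ne_zero, if_false] at this
      nlinarith
    · have h3 := h1 0 a ha
      have h4 := h1 1 a ha
      simp only [if_true, one_ne_zero, if_false] at h3 h4
      nlinarith [sq_nonneg ((s n).val a + (s n').val a)]
  choose x hx using fun a => cauchySeq_tendsto_of_complete (u := fun n => (s n).val a)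
    (Metric.cauchySeq_iff.2 fun ε hε => by
      obtain ⟨n0, h0⟩ := A2 (ε / 2) (half_pos hε)
      exact ⟨n0, fun n hn n' hn' => (h0 n hn n' hn' a).trans_lt (half_lt_self hε)⟩)
  have hx1 : ∀ L, Fam P L → qs L x ≤ 1 ^ 2 := fun L hL => le_of_tendsto' (tendsto_qs hx L)
    fun n => (qs_le_norm_sq _ hL).trans (pow_le_pow_left₀ (norm_nonneg _) (hs2 n) 2)
  set xx : BX P := BX.mk x ⟨_, hx1⟩ with hxx
  have hx2 : ‖xx‖ ≤ 1 := norm_le_of_qs _ zero_le_one hx1
  have hy : ∀ n, ‖s n - xx‖ ≤ 2 := fun n => (norm_sub_le _ _).trans (by linarith [hs2 n])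
  refine ⟨xx, tendsto_sub_nhds_zero_iff.1 (hc _ hy
    (fun a => tendsto_sub_nhds_zero_iff.2 (hx a)) fun η hη => ?_)⟩
  obtain ⟨δ, hδ, hδ'⟩ : ∃ δ, 0 < δ ∧ 4 * ((K + 2 : ℕ) : ℝ) ^ 2 * 2 * (4 * δ) = η / 2 :=
    ⟨η / (64 * ((K + 2 : ℕ) : ℝ) ^ 2), by positivity, by field_simp; norm_num⟩
  obtain ⟨A0, hA0⟩ := exists_res_close xx hδ
  obtain ⟨β, hβ, hβ'⟩ : ∃ β, 0 < β ∧ (A0.card + 1) * β = δ :=
    ⟨δ / (A0.card + 1), by positivity, by field_simp⟩
  obtain ⟨m, hm⟩ := hm (β ^ 2 / 2) (by positivity)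
  obtain ⟨σ, hσ, hσ'⟩ : ∃ σ, 0 < σ ∧ (A0.card + m + 1) * σ = δ :=
    ⟨δ / (A0.card + m + 1), by positivity, by field_simp⟩
  obtain ⟨n0, h0⟩ := A1 m (min (β ^ 2 / 2) (η / 2 / (m + 1))) (by positivity)
  obtain ⟨n1, h1⟩ := A2 σ hσ
  have h2 : ∀ n ≥ n1, ∀ a, |(s n).val a - x a| ≤ σ := fun n hn a =>
    le_of_tendsto ((hx a).const_sub _).abs ((eventually_ge_atTop n1).mono fun n' hn' =>
      h1 n hn n' hn' a)
  refine ⟨max n0 n1, fun p hp => ?_⟩
  obtain ⟨A, hA, h3, _, h4⟩ := near m _ (fun i => hs1 _)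
    (h0 p fun i => (le_max_left _ _).trans (hp i))
  have h5 : ‖tl A xx‖ ≤ 3 * δ := by
    have h6 := (norm_le_mass (res P (A0 \ A) x) (A := A0 \ A) fun a ha => by
      rw [res_val, if_neg ha]).trans (mass_le_card (c := β + σ) (card_le_card sdiff_subset)
        (by positivity) fun a ha => by
      have h7 : |(s (p 0)).val a| ≤ β := abs_le.2 (abs_le_of_sq_le_sq' (by
        linarith [h3 0 a (mem_sdiff.1 ha).2, min_le_left (β ^ 2 / 2) (η / 2 / (m + 1))]) hβ.le)
      have h8 := h2 _ ((le_max_right _ _).trans (hp 0)) a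
      have h9 := abs_sub_abs_le_abs_sub (x a) ((s (p 0)).val a)
      rw [abs_sub_comm] at h9
      rw [res_val, if_pos ha]
      linarith)
    refine (norm_mono (y := xx - res P A0 xx.val + res P (A0 \ A) x) fun a => ?_).trans
      ((norm_add_le _ _).trans (by nlinarith [mul_nonneg (Nat.cast_nonneg (α := ℝ) m) hσ.le]))
    by_cases ha : a ∈ A <;> by_cases ha' : a ∈ A0 <;> simp [tl_apply, res_val, ha, ha', hxx]
  have h6 := Dl_le (y := fun i => tl A (s (p i))) (z := fun i => s (p i) - xx) (δ := 4 * δ)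
    (fun i => (norm_tl_le _ _).trans ((hs2 _).trans one_le_two)) (fun i => hy _) fun i => by
      have h7 := (norm_le_mass (res P A (s (p i) - xx).val) (A := A) fun a ha => by
        rw [res_val, if_neg ha]).trans (mass_le_card hA hσ.le fun a ha => by
          rw [res_val, if_pos ha]
          exact h2 _ ((le_max_right _ _).trans (hp i)) a)
      have h8 : tl A (s (p i)) - (s (p i) - xx) = tl A xx - res P A (s (p i) - xx).val := by
        rw [show tl A (s (p i)) = tl A (s (p i) - xx) + tl A xx by rw [← map_add, sub_add_cancel],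
          tl_apply A (s (p i) - xx)]
        abel
      rw [h8]
      refine (norm_sub_le _ _).trans ?_
      nlinarith [mul_nonneg (Nat.cast_nonneg (α := ℝ) A0.card) hσ.le]
  have h7 := mul_le_mul_of_nonneg_left (min_le_right (β ^ 2 / 2) (η / 2 / (m + 1)))
    (show (0 : ℝ) ≤ m + 1 by positivity)
  rw [mul_div_cancel₀ _ (by positivity)] at h7
  linarith

end Rot

section No


open Finset Filter Topology

section general

variable {X : Type} [NormedAddCommGroup X] [NormedSpace ℝ X]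

/-- Sums of `n` successive choices along a filter. -/
noncomputable def sumf (f : Filter X) : ℕ → Filter X
  | 0 => pure 0
  | n + 1 => f.bind fun x => (sumf f n).map (x + ·)

theorem sumf_succ {f : Filter X} {n : ℕ} {p : X → Prop} :
    (∀ᶠ w in sumf f (n + 1), p w) ↔ ∀ᶠ x in f, ∀ᶠ w in sumf f n, p (x + w) := by
  simp only [sumf, eventually_bind, eventually_map]

theorem no_rot (f : Filter X) [f.NeBot] (K : ℕ) (hn : ∀ᶠ y in f, ‖y‖ = 1)
    (hf : ∀ᶠ x in f, ∀ᶠ y in f, ∀ s t : ℝ, |s| ≤ ‖s • y - t • x‖) (N : X → ℝ)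
    (hadd : ∀ x y, N (x + y) ≤ N x + N y) (hsmul : ∀ (c : ℝ) x, N (c • x) = |c| * N x)
    {a b : ℝ} (ha : 0 < a) (hab : ∀ x, a * ‖x‖ ≤ N x ∧ N x ≤ b * ‖x‖)
    (hst : ∀ r : ℚ, (∀ᶠ y in f, (r : ℝ) < N y) →
      ∀ᶠ w in sumf f (K + 1), (r : ℝ) < N (((K + 1 : ℕ) : ℝ)⁻¹ • w)) :
    ∃ s : ℕ → X, (∀ n, N (s n) = 1) ∧
      Tendsto (fun p : Fin (K + 1) → ℕ => N (∑ i, s (p i))) atTop (𝓝 (K + 1 : ℕ)) ∧
      ¬ ∃ x, Tendsto s atTop (𝓝 x) := by
  classical
  set E : Set ℝ := {t | ∀ᶠ y in f, t < N y} with hE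
  have hEa : a / 2 ∈ E := by
    filter_upwards [hn] with y hy
    have := (hab y).1
    rw [hy] at this
    linarith
  have hbdd : BddAbove E := ⟨b, fun t ht => by
    obtain ⟨y, hy1, hy2⟩ := (hn.and ht).exists
    have := (hab y).2
    rw [hy1] at this
    linarith⟩
  set c := sSup E with hc
  have hc0 : 0 < c := lt_of_lt_of_le (half_pos ha) (le_csSup hbdd hEa)
  have hlow : ∀ t < c, t ∈ E := fun t ht => by
    obtain ⟨t', ht', htt⟩ := exists_lt_of_lt_csSup ⟨_, hEa⟩ ht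
    exact ht'.mono fun y hy => htt.trans hy
  have hup : ∀ t, c < t → ∃ᶠ y in f, N y ≤ t := fun t ht => by
    by_contra hcon
    rw [not_frequently] at hcon
    exact absurd (le_csSup hbdd (hcon.mono fun y hy => not_le.1 hy)) (not_le.2 ht)
  have hε : ∀ n : ℕ, (0 : ℝ) < 1 / (n + 1) := fun n => by positivity
  have hK : (0 : ℝ) < (K + 1 : ℕ) := by positivity
  set good : ℕ → ℕ → X → Prop := fun m j z =>
    ∀ᶠ w in sumf f j, (K + 1 : ℕ) * (c - 1 / (m + 1)) < N (z + w) with hg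
  obtain ⟨x, hx⟩ := exists_rec (X := X) (fun n g x => |N x - c| ≤ 1 / (n + 1) ∧ ‖x‖ = 1 ∧
      (∀ᶠ y in f, ∀ s t : ℝ, |s| ≤ ‖s • y - t • x‖) ∧
      (∀ i, (∀ᶠ y in f, ∀ s t : ℝ, |s| ≤ ‖s • y - t • g i‖) → ∀ s t : ℝ, |s| ≤ ‖s • x - t • g i‖) ∧
      ∀ u : Finset (Fin n), ∀ m ∈ range (n + 1), ∀ j ∈ range (K + 1),
        good m (j + 1) (∑ i ∈ u, g i) → good m j (∑ i ∈ u, g i + x)) (fun n g => by
    refine ((hup (c + 1 / (n + 1)) (by linarith [hε n])).and_eventually
      ((hlow (c - 1 / (n + 1)) (by linarith [hε n])).and (hn.and (hf.and (Eventually.and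
        (eventually_all.2 fun i => eventually_imp_distrib_left.2 id)
        (eventually_all.2 fun u => (eventually_all_finset _).2 fun m _ =>
          (eventually_all_finset _).2 fun j _ => eventually_imp_distrib_left.2 fun h =>
            ?_)))))).exists.imp fun x h => ⟨abs_le.2 ⟨by linarith [h.2.1], by linarith [h.1]⟩, h.2.2⟩
    simpa only [hg, add_assoc] using sumf_succ.1 h)
  have hgood : ∀ (m : ℕ) (u : Finset ℕ), (∀ i ∈ u, m ≤ i) → ∀ j, u.card + j = K + 1 →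
      good m j (∑ i ∈ u, x i) := fun m u => by
    induction u using Finset.induction_on_max with
    | empty =>
      intro _ j hj
      obtain ⟨r, hr1, hr2⟩ := exists_rat_btwn (show c - 1 / ((m : ℝ) + 1) < c by linarith [hε m])
      obtain rfl : j = K + 1 := by simpa using hj
      refine (hst r (hlow _ hr2)).mono fun w hw => ?_
      rw [hsmul, abs_of_pos (inv_pos.2 hK), lt_inv_mul_iff₀ hK] at hw
      rw [sum_empty, zero_add]
      exact (mul_lt_mul_of_pos_left hr1 hK).trans hw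
    | insert n u hu ih =>
      intro hm j hj
      have h1 : n ∉ u := fun h => lt_irrefl _ (hu n h)
      rw [card_insert_of_notMem h1] at hj
      have h2 : ∑ i ∈ u.attachFin hu, x i = ∑ i ∈ u, x i := by
        conv_rhs => rw [← map_valEmbedding_attachFin hu, sum_map]
        rfl
      have h3 := (hx n).2.2.2.2 (u.attachFin hu) m
        (mem_range.2 (Nat.lt_succ_of_le (hm n (mem_insert_self _ _)))) j (mem_range.2 (by omega))
      rw [h2] at h3
      rw [sum_insert h1, add_comm]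
      exact h3 (ih (fun i hi => hm i (mem_insert_of_mem hi)) _ (by omega))
  have hNpos : ∀ n, 0 < N (x n) := fun n => by
    have := (hab (x n)).1
    rw [(hx n).2.1] at this
    linarith
  have hNb : ∀ n, N (x n) ≤ b := fun n => by
    have := (hab (x n)).2
    rw [(hx n).2.1] at this
    linarith
  have hsum : ∀ {ι : Type} (u : Finset ι) (v : ι → X) (d : ℝ), (∀ i ∈ u, N (v i) ≤ d) →
      N (∑ i ∈ u, v i) ≤ u.card * d := fun u v d h =>
    (le_sum_of_subadditive N (by simpa using (hsmul 0 0).le) hadd u v).trans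
      (by simpa using sum_le_card_nsmul _ _ _ h)
  set s : ℕ → X := fun n => (N (x n))⁻¹ • x n with hs
  have hs1 : ∀ n, N (s n) = 1 := fun n => by
    rw [hs, hsmul, abs_of_pos (inv_pos.2 (hNpos n)), inv_mul_cancel₀ (hNpos n).ne']
  have hle : ∀ {m n : ℕ}, m ≤ n → |N (x n) - c| ≤ 1 / (m + 1) := fun {m n} h =>
    (hx n).1.trans (by have : (m : ℝ) ≤ n := by exact_mod_cast h
                       gcongr)
  refine ⟨s, hs1, Metric.tendsto_nhds.2 fun ε hε' => ?_, ?_⟩
  · obtain ⟨m, hm⟩ := exists_nat_one_div_lt (show 0 < c * ε / (2 * ((K + 1 : ℕ) : ℝ) ^ 2) by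
      positivity)
    rw [lt_div_iff₀ (by positivity)] at hm
    filter_upwards [eventually_ge_atTop fun _ => m] with p hp
    obtain ⟨u, hu1, hu2, hu3⟩ := exists_subsuperset_card_eq (n := K + 1)
      (subset_union_left (s₁ := univ.image p) (s₂ := Ico m (m + (K + 1))))
      (card_image_le.trans (by simp)) (le_trans (by simp) (card_le_card subset_union_right))
    have hu4 : ∀ i ∈ u, m ≤ i := fun i hi => (mem_union.1 (hu2 hi)).elim
      (fun h => by obtain ⟨j, _, rfl⟩ := mem_image.1 h; exact hp j) fun h => (mem_Ico.1 h).1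
    have h1 : (K + 1 : ℕ) * (c - 1 / (m + 1)) < N (∑ i ∈ u, x i + 0) := hgood m u hu4 0 hu3
    have h2 : ((K + 1 : ℕ) : ℝ) • ∑ i ∈ u, x i = c • ∑ i, s (p i) +
        (∑ i, (x (p i) - c • s (p i)) + ∑ i, ∑ j ∈ u.erase (p i), x j) := by
      rw [Nat.cast_smul_eq_nsmul, smul_sum (r := c), ← sum_add_distrib, ← sum_add_distrib]
      conv_lhs => rw [← Fintype.card_fin (K + 1), ← card_univ, ← sum_const]
      refine sum_congr rfl fun i _ => ?_
      rw [← add_sum_erase _ _ (hu1 (mem_image_of_mem p (mem_univ i)))]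
      abel
    have h3 := hsum univ (fun i => x (p i) - c • s (p i)) (1 / (m + 1)) fun i _ => by
      rw [show x (p i) - c • s (p i) = (N (x (p i)) - c) • s (p i) by
        rw [sub_smul, hs, smul_smul (N _), mul_inv_cancel₀ (hNpos _).ne', one_smul], hsmul, hs1,
        mul_one]
      exact hle (hp i)
    have h4 := hsum univ (fun i => ∑ j ∈ u.erase (p i), x j) (K * (c + 1 / (m + 1))) fun i _ => by
      have := hsum (u.erase (p i)) x (c + 1 / (m + 1)) fun j hj => by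
        linarith [(abs_le.1 (hle (hu4 j (mem_of_mem_erase hj)))).2]
      rwa [card_erase_of_mem (hu1 (mem_image_of_mem p (mem_univ i))), hu3] at this
    have h5 := hsum univ (fun i => s (p i)) 1 fun i _ => (hs1 _).le
    have h6 := hadd (c • ∑ i, s (p i))
      (∑ i, (x (p i) - c • s (p i)) + ∑ i, ∑ j ∈ u.erase (p i), x j)
    rw [← h2, hsmul, hsmul, abs_of_pos hK, abs_of_pos hc0] at h6
    have h7 := hadd (∑ i, (x (p i) - c • s (p i))) (∑ i, ∑ j ∈ u.erase (p i), x j)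
    rw [add_zero] at h1
    have h8 := mul_lt_mul_of_pos_left h1 hK
    rw [card_univ, Fintype.card_fin] at h3 h4 h5
    rw [Real.dist_eq, abs_sub_comm, abs_of_nonneg (by linarith)]
    refine lt_of_mul_lt_mul_left ?_ hc0.le
    push_cast at *
    linarith
  · rintro ⟨z, hz⟩
    have hb0 : 0 < b := (hNpos 0).trans_le (hNb 0)
    obtain ⟨n, hn⟩ := Metric.cauchySeq_iff.1 hz.cauchySeq b⁻¹ (inv_pos.2 hb0)
    have h1 := hn (n + 1) (Nat.le_succ n) n le_rfl
    rw [dist_eq_norm] at h1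
    have h2 := (hx (n + 1)).2.2.2.1 (Fin.last n) (hx n).2.2.1 (N (x (n + 1)))⁻¹ (N (x n))⁻¹
    rw [abs_of_pos (inv_pos.2 (hNpos _))] at h2
    exact absurd ((inv_anti₀ (hNpos _) (hNb _)).trans h2) (not_le.2 h1)

end general

variable {I : Type} [LinearOrder I] [OrderTop I] {k : ℕ}

theorem club [WellFoundedLT I] [Uncountable I] {C : Type} [Countable C] (r : I → C) :
    ∃ t, ∀ T : Finset I, ∃ s < t, (∀ θ ∈ T, θ < t → θ < s) ∧ r s = r t := by
  classical
  obtain ⟨o, ho, ho'⟩ := (wellFounded_lt (α := I)).has_min {b | ¬(Set.Iio b).Countable}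
    ⟨⊤, fun h => Set.not_countable_univ ((h.insert ⊤).mono fun b _ => (le_top (a := b)).eq_or_lt)⟩
  have ub : ∀ g : C → I, (∀ c, g c < o) → ∀ b < o, ∃ d < o, b < d ∧ ∀ c, g c < d := by
    intro g hg b hb
    have hc : ∀ d < o, (Set.Iic d).Countable := fun d hd =>
      ((not_not.1 fun h => ho' d h hd : (Set.Iio d).Countable).insert d).mono
        fun e he => (le_of_eq_of_le rfl he).eq_or_lt
    by_contra h
    push Not at h
    refine ho (((hc b hb).union (Set.countable_iUnion fun c => hc _ (hg c))).mono fun d hd => ?_)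
    rcases le_or_gt d b with h1 | h1
    · exact Or.inl h1
    · obtain ⟨c, hc⟩ := h d hd h1
      exact Or.inr (Set.mem_iUnion.2 ⟨c, hc⟩)
  obtain ⟨b0, hb0⟩ : (Set.Iio o).Nonempty := Set.nonempty_iff_ne_empty.2 fun h =>
    ho (h ▸ Set.countable_empty)
  have h1 : ∀ c, ∃ b < o, (∀ d < o, ∃ s < o, d < s ∧ r s = c) ∨ ∀ s < o, b < s → r s ≠ c :=
    fun c => by
      by_cases h : ∀ d < o, ∃ s < o, d < s ∧ r s = c
      · exact ⟨b0, hb0, Or.inl h⟩
      · push Not at h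
        obtain ⟨d, hd, h⟩ := h
        exact ⟨d, hd, Or.inr h⟩
  choose b hb hb' using h1
  have h2 : ∀ d : Set.Iio o, ∃ e : Set.Iio o, d.1 < e.1 ∧ (∀ c, b c < e.1) ∧
      ∀ c, (∀ d < o, ∃ s < o, d < s ∧ r s = c) → ∃ s < e.1, d.1 < s ∧ r s = c := fun d => by
    have h3 : ∀ c, ∃ s < o, (∀ d < o, ∃ s < o, d < s ∧ r s = c) → d.1 < s ∧ r s = c := fun c => by
      by_cases h : ∀ d < o, ∃ s < o, d < s ∧ r s = c
      · obtain ⟨s, hs, hs'⟩ := h d.1 d.2
        exact ⟨s, hs, fun _ => hs'⟩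
      · exact ⟨b0, hb0, fun h' => absurd h' h⟩
    choose g hg hg' using h3
    obtain ⟨e, he, he1, he2⟩ := ub (fun c => max (b c) (g c)) (fun c => max_lt (hb c) (hg c)) d.1 d.2
    exact ⟨⟨e, he⟩, he1, fun c => (le_max_left _ _).trans_lt (he2 c),
      fun c h => ⟨g c, (le_max_right _ _).trans_lt (he2 c), hg' c h⟩⟩
  choose nx hn1 hn2 hn3 using h2
  set t : ℕ → Set.Iio o := fun n => nx^[n] ⟨b0, hb0⟩ with ht
  have ht1 : ∀ n, t (n + 1) = nx (t n) := fun n => Function.iterate_succ_apply' _ _ _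
  have ht2 : StrictMono fun n => (t n).1 := strictMono_nat_of_lt_succ fun n => ht1 n ▸ hn1 _
  obtain ⟨τ, hτ, hτ'⟩ := (wellFounded_lt (α := I)).has_min {d | ∀ n, (t n).1 < d}
    ⟨o, fun n => (t n).2⟩
  have hτo : τ < o := by
    by_contra h
    refine ho ((Set.countable_iUnion fun n => (not_not.1 fun h' => ho' _ h' (t n).2 :
      (Set.Iio (t n).1).Countable)).mono fun d hd => ?_)
    by_contra h'
    exact hτ' d (fun n => (ht2 n.lt_succ_self).trans_le (not_lt.1 fun h'' =>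
      h' (Set.mem_iUnion.2 ⟨n + 1, h''⟩))) (lt_of_lt_of_le hd (not_lt.1 h))
  refine ⟨τ, fun T => ?_⟩
  have h4 : ∀ θ, ∃ n, θ < τ → θ ≤ (t n).1 := fun θ => by
    by_contra h
    push Not at h
    exact hτ' θ (fun n => (h n).2) (h 0).1
  choose n hn using h4
  obtain ⟨s, hs, hs1, hs2⟩ := hn3 (t (T.sup n)) (r τ) ((hb' (r τ)).resolve_right fun h =>
    h τ hτo ((hn2 (t 0) _).trans (ht1 0 ▸ hτ 1)) rfl)
  exact ⟨s, hs.trans (ht1 _ ▸ hτ _), fun θ hθ h =>
    ((hn θ h).trans (ht2.monotone (le_sup hθ))).trans_lt hs1, hs2⟩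

/-- Conditions on the leaves of a block. -/
def Lf (t : I) (T : Finset I) (a : I × Finset I) : Prop :=
  T ⊆ a.2 ∧ a.1 ∈ a.2 ∧ a.1 < t ∧ ∀ θ ∈ T, θ < t → θ < a.1

/-- A nonnegative vector of total weight `r` carried by `G`. -/
def Wt (G : Finset (I × Finset I)) (y : BX (fam I k)) (r : ℝ) : Prop :=
  (∀ a, 0 ≤ y.val a) ∧ (∀ a ∉ G, y.val a = 0) ∧ ∑ a ∈ G, y.val a = r

/-- A block at level `t`. -/
def Blk (k : ℕ) (t : I) (T : Finset I) (G : Finset (I × Finset I)) : Prop :=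
  (fam I k).adm G ∧ (∀ a ∈ G, Lf t T a) ∧ ∀ a ∈ G, ∀ b ∈ G, Pr a b → jn a.2 b.1 < t

/-- A union of `n` blocks at level `s`. -/
def Inv (k : ℕ) (s : I) (T : Finset I) (n : ℕ) (G : Finset (I × Finset I)) : Prop :=
  Ch G ∧ (∀ a ∈ G, Lf s (insert s T) a) ∧ (∀ a ∈ G, ∀ b ∈ G, Pr a b → jn a.2 b.1 ≤ s) ∧
    (∀ u ⊆ G, Mono s u → u.card ≤ n) ∧ ∀ σ ≠ s, ∀ u ⊆ G, Mono σ u → u.card ≤ k + 1

theorem Wt.add {G G' : Finset (I × Finset I)} {y y' : BX (fam I k)} {r r' : ℝ} (h : Wt G y r)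
    (h' : Wt G' y' r') : Wt (G ∪ G') (y + y') (r + r') := by
  refine ⟨fun a => add_nonneg (h.1 a) (h'.1 a), fun a ha => ?_, ?_⟩
  · rw [mem_union, not_or] at ha
    simp [h.2.1 a ha.1, h'.2.1 a ha.2]
  · simp only [BX.val_add, Pi.add_apply]
    rw [sum_add_distrib, ← sum_subset (subset_union_left (s₂ := G')) (fun a _ ha => h.2.1 a ha),
      ← sum_subset (subset_union_right (s₁ := G)) (fun a _ ha => h'.2.1 a ha), h.2.2, h'.2.2]

theorem Inv.add {s : I} {T : Finset I} {n : ℕ} {G G' : Finset (I × Finset I)} (h : Inv k s T n G)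
    (h' : Blk k s (insert s T ∪ G.biUnion Prod.snd) G') : Inv k s T (n + 1) (G ∪ G') := by
  obtain ⟨h1, h2, h3, h4, h5⟩ := h
  obtain ⟨⟨g1, g2⟩, g3, g4⟩ := h'
  have c0 : ∀ a ∈ G, a.2 ⊆ insert s T ∪ G.biUnion Prod.snd := fun a ha =>
    (subset_biUnion_of_mem Prod.snd ha).trans subset_union_right
  have c1 : ∀ a ∈ G, ∀ b ∈ G', Pr a b := fun a ha b hb =>
    ⟨(g3 b hb).2.2.2 _ (c0 a ha (h2 a ha).2.1) (h2 a ha).2.2.1, (h2 a ha).2.1,
      (c0 a ha).trans (g3 b hb).1⟩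
  have c2 : ∀ a ∈ G, ∀ b ∈ G', jn a.2 b.1 = s := fun a ha b hb =>
    le_antisymm (inf_le (f := id) (mem_filter.2 ⟨(h2 a ha).1 (mem_insert_self _ _),
      (g3 b hb).2.2.1.le⟩)) (Finset.le_inf fun θ hθ => not_lt.1 fun h => not_lt.2
        (mem_filter.1 hθ).2 ((g3 b hb).2.2.2 θ (c0 a ha (mem_filter.1 hθ).1) h))
  refine ⟨fun a ha b hb hab => ?_, fun a ha => ?_, fun a ha b hb hab => ?_, fun u hu hm => ?_,
    fun σ hσ u hu hm => ?_⟩
  · rcases mem_union.1 ha with ha | ha <;> rcases mem_union.1 hb with hb | hb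
    exacts [h1 a ha b hb hab, Or.inl (c1 a ha b hb), Or.inr (c1 b hb a ha), g1 a ha b hb hab]
  · rcases mem_union.1 ha with ha | ha
    · exact h2 a ha
    · exact ⟨subset_union_left.trans (g3 a ha).1, (g3 a ha).2.1, (g3 a ha).2.2.1,
        fun θ hθ => (g3 a ha).2.2.2 θ (mem_union_left _ hθ)⟩
  · rcases mem_union.1 ha with ha | ha <;> rcases mem_union.1 hb with hb | hb
    exacts [h3 a ha b hb hab, (c2 a ha b hb).le, absurd hab.1 (c1 b hb a ha).1.not_gt,
      (g4 a ha b hb hab).le]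
  · have e1 := h4 (u ∩ G) inter_subset_right fun a ha b hb =>
      hm a (mem_inter.1 ha).1 b (mem_inter.1 hb).1
    have e2 : (u ∩ G').card ≤ 1 := card_le_one.2 fun a ha b hb => by
      rw [mem_inter] at ha hb
      by_contra hab
      rcases g1 a ha.2 b hb.2 hab with h | h
      exacts [(g4 a ha.2 b hb.2 h).ne (hm a ha.1 b hb.1 h), (g4 b hb.2 a ha.2 h).ne (hm b hb.1 a ha.1 h)]
    have e3 := card_union_le (u ∩ G) (u ∩ G')
    rw [← inter_union_distrib_left, inter_eq_left.2 hu] at e3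
    omega
  · by_cases h : ∃ a ∈ u, a ∈ G
    · obtain ⟨a, ha, ha'⟩ := h
      exact h5 σ hσ u (fun b hb => (mem_union.1 (hu hb)).resolve_right fun hb' =>
        hσ ((hm a ha b hb (c1 a ha' b hb')).symm.trans (c2 a ha' b hb'))) hm
    · exact g2 σ u (fun b hb => (mem_union.1 (hu hb)).resolve_left fun hb' => h ⟨b, hb, hb'⟩) hm

theorem sumf_inv {f : Filter (BX (fam I k))} {s : I}
    (h : ∀ T, ∀ᶠ y in f, ∃ G, Blk k s T G ∧ Wt G y 1) (T : Finset I) (j : ℕ) :
    ∀ n G z, Inv k s T n G → Wt G z n →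
      ∀ᶠ w in sumf f j, ∃ G', Inv k s T (n + j) G' ∧ Wt G' (z + w) (n + j : ℕ) := by
  induction j with
  | zero => exact fun n G z h1 h2 => eventually_pure.2 ⟨G, h1, by simpa using h2⟩
  | succ j ih =>
    intro n G z h1 h2
    refine sumf_succ.2 ((h (insert s T ∪ G.biUnion Prod.snd)).mono fun x ⟨G', g1, g2⟩ => ?_)
    have := ih (n + 1) _ _ (h1.add g1) (by simpa using h2.add g2)
    simpa only [add_assoc, add_comm 1 j] using this

variable [WellFoundedLT I]

variable (k) in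
/-- The hierarchy of filters of repeated averages. -/
noncomputable def hier : I → Filter (BX (fam I k)) :=
  (wellFounded_lt (α := I)).fix fun t ih => (atTop : Filter (Finset I)).bind fun T =>
    ⨆ (s : I) (h : s < t) (_ : ∀ θ ∈ T, θ < t → θ < s),
      map (fun S => ev _ (s, S)) atTop ⊔ map (((k + 1 : ℕ) : ℝ)⁻¹ • ·) (sumf (ih s h) (k + 1))

theorem eventually_hier {t : I} {p : BX (fam I k) → Prop} :
    (∀ᶠ z in hier k t, p z) ↔ ∀ᶠ T in (atTop : Filter (Finset I)), ∀ s < t,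
      (∀ θ ∈ T, θ < t → θ < s) → (∀ᶠ S in atTop, p (ev _ (s, S))) ∧
        ∀ᶠ w in sumf (hier k s) (k + 1), p (((k + 1 : ℕ) : ℝ)⁻¹ • w) := by
  unfold hier
  rw [WellFounded.fix_eq]
  simp only [eventually_bind, eventually_sup, eventually_map, eventually_iSup]

theorem eventually_blk (t : I) : ∀ T, ∀ᶠ y in hier k t, ∃ G, Blk k t T G ∧ Wt G y 1 := by
  induction t using WellFoundedLT.induction with
  | ind t ih =>
    intro T
    rw [eventually_hier]
    filter_upwards [eventually_ge_atTop T] with T' hT s hs hs'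
    constructor
    · filter_upwards [eventually_ge_atTop (insert s T)] with S hS
      refine ⟨{(s, S)}, ⟨(fam I k).one _, fun a ha => ?_, fun a ha b hb h => ?_⟩,
        fun a => ?_, fun a ha => ?_, by simp [ev_val]⟩
      · rw [mem_singleton.1 ha]
        exact ⟨(subset_insert _ _).trans hS, hS (mem_insert_self _ _), hs,
          fun θ hθ => hs' θ (hT hθ)⟩
      · rw [mem_singleton.1 ha, mem_singleton.1 hb] at h
        exact absurd h.1 (lt_irrefl _)
      · rw [ev_val]; split_ifs <;> norm_num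
      · rw [ev_val, if_neg (by simpa using ha)]
    · refine (sumf_inv (ih s hs) T (k + 1) 0 ∅ 0 ⟨by simp [Ch], by simp, by simp, by simp, by simp⟩
        ⟨by simp, by simp, by simp⟩).mono fun w ⟨G, ⟨h1, h2, h3, h4, h5⟩, g1, g2, g3⟩ => ?_
      rw [zero_add] at g1 g2 g3 h4
      refine ⟨G, ⟨⟨h1, fun σ u hu hm => ?_⟩, fun a ha => ?_,
        fun a ha b hb h => (h3 a ha b hb h).trans_lt hs⟩, fun a => ?_, fun a ha => ?_, ?_⟩
      · rcases eq_or_ne σ s with rfl | h
        exacts [h4 u hu hm, h5 σ h u hu hm]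
      · exact ⟨(subset_insert _ _).trans (h2 a ha).1, (h2 a ha).2.1, (h2 a ha).2.2.1.trans hs,
          fun θ hθ h => (h2 a ha).2.2.2 θ (mem_insert_of_mem hθ) (hs' θ (hT hθ) h)⟩
      · exact mul_nonneg (by positivity) (g1 a)
      · simp [g2 a ha]
      · simp only [BX.val_smul, Pi.smul_apply, smul_eq_mul]
        rw [← mul_sum, g3, zero_add, inv_mul_cancel₀ (by positivity)]

theorem no_krot [Uncountable I] (N : BX (fam I k) → ℝ)
    (hadd : ∀ x y, N (x + y) ≤ N x + N y) (hsmul : ∀ (c : ℝ) x, N (c • x) = |c| * N x)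
    {a b : ℝ} (ha : 0 < a) (hab : ∀ x, a * ‖x‖ ≤ N x ∧ N x ≤ b * ‖x‖) :
    ∃ s : ℕ → BX (fam I k), (∀ n, N (s n) = 1) ∧
      Tendsto (fun p : Fin (k + 1) → ℕ => N (∑ i, s (p i))) atTop (𝓝 (k + 1 : ℕ)) ∧
      ¬ ∃ x, Tendsto s atTop (𝓝 x) := by
  have h1 : ∀ t : I, ∃ q : Option ℚ, ∀ r : ℚ, (q = some r → ¬∀ᶠ w in sumf (hier k t) (k + 1),
      (r : ℝ) < N (((k + 1 : ℕ) : ℝ)⁻¹ • w)) ∧ (q = some r → ∀ᶠ y in hier k t, (r : ℝ) < N y) ∧
      (q = none → (∀ᶠ y in hier k t, (r : ℝ) < N y) → ∀ᶠ w in sumf (hier k t) (k + 1),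
        (r : ℝ) < N (((k + 1 : ℕ) : ℝ)⁻¹ • w)) := fun t => by
    by_cases h : ∀ r : ℚ, (∀ᶠ y in hier k t, (r : ℝ) < N y) → ∀ᶠ w in sumf (hier k t) (k + 1),
        (r : ℝ) < N (((k + 1 : ℕ) : ℝ)⁻¹ • w)
    · exact ⟨none, fun r => ⟨nofun, nofun, fun _ => h r⟩⟩
    · obtain ⟨r, h⟩ := not_forall.1 h
      rw [Classical.not_imp] at h
      exact ⟨some r, fun r' => ⟨fun e => Option.some.inj e ▸ h.2, fun e => Option.some.inj e ▸ h.1,
        nofun⟩⟩
  choose q hq using h1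
  obtain ⟨t, ht⟩ := club q
  have : (hier k t).NeBot := ⟨fun h => by
    obtain ⟨T, hT⟩ := (eventually_hier.1 (h ▸ eventually_bot : ∀ᶠ _ in hier k t, False)).exists
    obtain ⟨s, hs, hs', _⟩ := ht T
    exact (hT s hs hs').1.exists.elim fun _ h => h⟩
  have hm : ∀ {G : Finset (I × Finset I)} {y : BX (fam I k)}, Wt G y 1 → mass G y.val = 1 :=
    fun h => (sum_congr rfl fun a _ => abs_of_nonneg (h.1 a)).trans h.2.2
  refine no_rot (hier k t) k ((eventually_blk t ∅).mono fun y ⟨G, h, h'⟩ => le_antisymm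
    (hm h' ▸ norm_le_mass y h'.2.1) (hm h' ▸ mass_le_norm y h.1))
    ((eventually_blk t ∅).mono fun x ⟨B, _, hB⟩ => ?_) N hadd hsmul ha hab fun r => ?_
  · obtain ⟨i, hi⟩ := Infinite.exists_notMem_finset (B.biUnion Prod.snd)
    filter_upwards [eventually_blk t {i}] with y ⟨G, h, h'⟩ s t
    refine le_trans (le_of_eq ?_) (mass_le_norm _ h.1)
    rw [← mul_one |s|, ← hm h', ← mass_smul]
    refine sum_congr rfl fun a ha => ?_
    simp [hB.2.1 a fun h'' => hi (mem_biUnion.2 ⟨a, h'', (h.2.1 a ha).1 (mem_singleton_self i)⟩)]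
  · rcases h : q t with _ | r'
    · exact (hq t r).2.2 h
    · obtain ⟨T, hT⟩ := (eventually_hier.1 ((hq t r').2.1 h)).exists
      obtain ⟨s, hs, hs', e⟩ := ht T
      exact absurd (hT s hs hs').2 ((hq s r').1 (e.trans h))

theorem not_separable [Uncountable I] : ¬ TopologicalSpace.SeparableSpace (BX (fam I k)) := by
  intro hsep
  refine not_countable (α := I) (Pairwise.countable_of_isOpen_disjoint
    (s := fun i : I => Metric.ball (ev (fam I k) (i, ∅)) (1 / 2 : ℝ)) (fun i j hij => ?_)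
    (fun i => Metric.isOpen_ball) fun i => Metric.nonempty_ball.2 (by norm_num))
  apply Metric.ball_disjoint_ball
  rw [dist_eq_norm]
  have := coord_le_norm (ev (fam I k) (i, ∅) - ev (fam I k) (j, ∅)) (i, ∅)
  simp [ev_val, hij] at this
  linarith

end No

section Main

open Filter Topology Cardinal

theorem exists_dense_le {Γ : Type} [DecidableEq Γ] [Infinite Γ] (P : Fm Γ) :
    ∃ D : Set (BX P), Dense D ∧ #D ≤ #Γ := by
  set S := AddMonoidHom.mrange (FreeAddMonoid.lift fun p : ℚ × Γ => (p.1 : ℝ) • ev P p.2)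
  refine ⟨S, fun x => ?_, mk_range_le.trans ?_⟩
  · refine closure_minimal subset_rfl isClosed_closure (Metric.mem_closure_iff.2 fun ε hε => ?_)
    obtain ⟨A, hA⟩ := exists_res_close x (half_pos hε)
    refine ⟨res P A x.val, ?_, by rw [dist_eq_norm]; linarith⟩
    rw [res_eq_sum]
    refine S.topologicalClosure.sum_mem fun a _ => ?_
    refine map_mem_closure (f := fun c : ℝ => c • ev P a) (by fun_prop)
      (Rat.denseRange_cast (x.val a)) ?_
    rintro _ ⟨q, rfl⟩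
    exact ⟨FreeAddMonoid.of (q, a), by simp⟩
  · change #(List (ℚ × Γ)) ≤ _
    simp [mk_list_eq_mk, mul_eq_max le_rfl (aleph0_le_mk Γ)]

theorem main (k : ℕ) : ∃ (X : Type) (_ : NormedAddCommGroup X) (_ : NormedSpace ℝ X),
    CompleteSpace X ∧ Function.Surjective (NormedSpace.inclusionInDoubleDual ℝ X) ∧
    ¬ TopologicalSpace.SeparableSpace X ∧ (∃ D : Set X, Dense D ∧ #D ≤ ℵ₁) ∧
    (∃ N : X → ℝ, EqNorm N ∧ Rotund (k + 2) N) ∧ ∀ N : X → ℝ, EqNorm N → ¬ Rotund (k + 1) N := by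
  have h0 : #(ℵ₁ : Cardinal.{0}).ord.ToType = ℵ₁ := mk_ord_toType _
  have : Uncountable (ℵ₁ : Cardinal.{0}).ord.ToType :=
    aleph0_lt_mk_iff.1 (h0.symm ▸ aleph0_lt_aleph_one)
  have : Uncountable (WithTop (ℵ₁ : Cardinal.{0}).ord.ToType) := WithTop.coe_injective.uncountable
  have hc := core (I := WithTop (ℵ₁ : Cardinal.{0}).ord.ToType) (k := k)
  refine ⟨BX (fam _ k), inferInstance, inferInstance, complete (shr_of_cor hc),
    reflexive (shr_of_cor hc), not_separable, ?_, ⟨fun x => √(QN x), ⟨sqrt_QN_add, fun c x => ?_,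
      1, 2, one_pos, two_pos, fun x => ⟨?_, ?_⟩⟩, rot hc⟩, fun N ⟨h1, h2, a, b, ha, _, h3⟩ h => ?_⟩
  · refine (exists_dense_le _).imp fun D hD => ⟨hD.1, hD.2.trans ?_⟩
    have h1 : #(WithTop (ℵ₁ : Cardinal.{0}).ord.ToType) = ℵ₁ :=
      mk_option.trans (by rw [h0, add_one_eq aleph0_lt_aleph_one.le])
    rw [mk_prod, lift_id, lift_id, mk_finset_of_infinite, h1, mul_eq_self aleph0_lt_aleph_one.le]
  · simp only [QN_smul, Real.sqrt_mul (sq_nonneg c), Real.sqrt_sq_eq_abs]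
  · rw [one_mul]
    exact Real.le_sqrt_of_sq_le (le_QN x)
  · exact Real.sqrt_le_iff.2 ⟨by positivity, QN_le x⟩
  · obtain ⟨s, h4, h5, h6⟩ := no_krot N h1 h2 ha h3
    exact h6 (h s h4 h5)

end Main

end Pool.Agent.MP_160a79_an.Kr
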