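import Pool.Agent.MP_160a79_an.Reflexive

/-!
No equivalent norm on `BX I` is 2-rotund when `I` is an uncountable well-order with a top.
-/

set_option autoImplicit false

universe u

namespace Pool.Agent.MP_160a79_an

open Finset Filter

variable {I : Type u} [LinearOrder I] [OrderTop I]

/-- midpoint convolution of a filter with itself -/
noncomputable def midf (f : Filter (BX I)) : Filter (BX I) :=
  f.bind fun x => f.map fun y => (1 / 2 : ℝ) • (x + y)

theorem eventually_midf {f : Filter (BX I)} {P : BX I → Prop} :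
    (∀ᶠ z in midf f, P z) ↔ ∀ᶠ x in f, ∀ᶠ y in f, P ((1 / 2 : ℝ) • (x + y)) := by
  simp only [midf, eventually_bind, eventually_map]

variable [WellFoundedLT I]

/-- The transfinite hierarchy of filters of repeated midpoints. -/
noncomputable def hier : I → Filter (BX I) :=
  WellFounded.fix (wellFounded_lt (α := I)) fun β ih =>
    map ev atTop ⊔ ⨆ (α : I) (h : α < β), midf (ih α h)

theorem hier_eq (β : I) :
    hier β = map ev atTop ⊔ ⨆ (α : I) (_ : α < β), midf (hier α) := by
  unfold hier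
  rw [WellFounded.fix_eq]

theorem eventually_hier {β : I} {P : BX I → Prop} :
    (∀ᶠ z in hier β, P z) ↔ (∀ᶠ S in (atTop : Filter (Finset I)), P (ev S)) ∧
      ∀ α < β, ∀ᶠ x in hier α, ∀ᶠ y in hier α, P ((1 / 2 : ℝ) • (x + y)) := by
  rw [hier_eq β]
  simp only [eventually_sup, eventually_map, eventually_iSup, eventually_midf]

instance hier_neBot (β : I) : (hier β).NeBot := by
  rw [hier_eq]
  exact NeBot.mono inferInstance le_sup_left

/-- `y` is a probability vector carried by an `α`-admissible family of supersets of `T`. -/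
def Avg (α : I) (T : Finset I) (y : BX I) : Prop :=
  ∃ F : Finset (Finset I), Adm α F ∧ (∀ S ∈ F, T ⊆ S) ∧ (∀ S, 0 ≤ y.val S) ∧
    (∀ S ∉ F, y.val S = 0) ∧ ∑ S ∈ F, y.val S = 1

theorem eventually_avg (β : I) : ∀ T : Finset I, ∀ᶠ y in hier β, Avg β T y := by
  induction β using WellFoundedLT.induction with
  | ind β ih =>
    intro T
    rw [eventually_hier]
    constructor
    · filter_upwards [eventually_ge_atTop T] with S hS
      refine ⟨{S}, Adm.small _ _ (by simp), by simpa using hS, fun S' => ?_, fun S' hS' => ?_, ?_⟩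
      · rw [ev_val]; split_ifs <;> norm_num
      · rw [ev_val, if_neg (by simpa using hS')]
      · simp [ev_val]
    · intro α hα
      filter_upwards [ih α hα (insert α T)] with x hx
      filter_upwards [ih α hα (insert α T)] with y hy
      obtain ⟨F, hF1, hF2, hF3, hF4, hF5⟩ := hx
      obtain ⟨G, hG1, hG2, hG3, hG4, hG5⟩ := hy
      refine ⟨F ∪ G, Adm.join _ α F G hα (fun S hS => hF2 S hS (mem_insert_self _ _))
        (fun S hS => hG2 S hS (mem_insert_self _ _)) hF1 hG1, fun S hS => ?_, fun S => ?_,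
        fun S hS => ?_, ?_⟩
      · rcases mem_union.1 hS with h | h
        · exact (subset_insert _ _).trans (hF2 S h)
        · exact (subset_insert _ _).trans (hG2 S h)
      · have := hF3 S
        have := hG3 S
        simp only [BX.val_smul, BX.val_add, Pi.smul_apply, Pi.add_apply, smul_eq_mul]
        positivity
      · rw [mem_union, not_or] at hS
        simp [hF4 S hS.1, hG4 S hS.2]
      · simp only [BX.val_smul, BX.val_add, Pi.smul_apply, Pi.add_apply, smul_eq_mul]
        rw [← mul_sum, sum_add_distrib,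
          ← sum_subset (subset_union_left (s₂ := G)) (fun S _ h => hF4 S h),
          ← sum_subset (subset_union_right (s₁ := F)) (fun S _ h => hG4 S h), hF5, hG5]
        norm_num

omit [WellFoundedLT I] in
theorem Avg.norm_eq {α : I} {T : Finset I} {y : BX I} (h : Avg α T y) : ‖y‖ = 1 := by
  obtain ⟨F, hF1, _, hF3, hF4, hF5⟩ := h
  have hm : mass F y.val = 1 := by
    rw [← hF5]
    exact sum_congr rfl fun S _ => abs_of_nonneg (hF3 S)
  apply le_antisymm
  · rw [← hm]; exact norm_le_mass y hF4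
  · rw [← hm]; exact mass_le_norm y hF1

theorem eventually_norm (β : I) : ∀ᶠ y in hier β, ‖y‖ = 1 :=
  (eventually_avg β ∅).mono fun _ h => h.norm_eq

theorem eventually_far [Infinite I] (β : I) {x : BX I}
    (hx : ∃ B : Finset (Finset I), ∀ S ∉ B, x.val S = 0) :
    ∀ᶠ y in hier β, ∀ s t : ℝ, |s| ≤ ‖s • y - t • x‖ := by
  obtain ⟨B, hB⟩ := hx
  obtain ⟨i, hi⟩ := Infinite.exists_notMem_finset (B.biUnion id)
  filter_upwards [eventually_avg β {i}] with y hy s t
  obtain ⟨F, hF1, hF2, hF3, _, hF5⟩ := hy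
  refine le_trans (le_of_eq ?_) (mass_le_norm _ hF1)
  have : ∀ S ∈ F, |(s • y - t • x).val S| = |s| * y.val S := by
    intro S hS
    have hSB : S ∉ B := fun h => hi (mem_biUnion.2 ⟨S, h, hF2 S hS (mem_singleton_self i)⟩)
    simp [hB S hSB, abs_mul, abs_of_nonneg (hF3 S)]
  unfold mass
  rw [sum_congr rfl this, ← mul_sum, hF5, mul_one]

theorem eventually_fin (β : I) :
    ∀ᶠ y in hier β, ∃ B : Finset (Finset I), ∀ S ∉ B, y.val S = 0 :=
  (eventually_avg β ∅).mono fun _ ⟨F, _, _, _, h, _⟩ => ⟨F, h⟩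

theorem exists_stable [Uncountable I] (N : BX I → ℝ) :
    ∃ α : I, ∀ r : ℚ, (∀ᶠ y in hier α, (r : ℝ) < N y) →
      ∀ᶠ x in hier α, ∀ᶠ y in hier α, (r : ℝ) < N ((1 / 2 : ℝ) • (x + y)) := by
  by_contra hcon
  push Not at hcon
  choose r hr1 hr2 using hcon
  have hninj : ¬ Function.Injective r := fun h => not_countable h.countable
  unfold Function.Injective at hninj
  push Not at hninj
  obtain ⟨α, β, hαβ, hne⟩ := hninj
  have key : ∀ α β : I, α < β → r α = r β → False := by
    intro α β hlt he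
    have h1 := hr1 β
    rw [eventually_hier] at h1
    have h2 := h1.2 α hlt
    rw [← he] at h2
    have h3 := hr2 α
    obtain ⟨x, hx1, hx2⟩ := (h3.and_eventually h2).exists
    obtain ⟨y, hy1, hy2⟩ := (hx1.and_eventually hx2).exists
    linarith
  rcases lt_or_gt_of_ne hne with h | h
  · exact key α β h hαβ
  · exact key β α h hαβ.symm

/-- A general selection lemma: a sequence along a filter. -/
theorem exists_seq_along {X : Type*} (f : Filter X) (P : ℕ → X → Prop) (R : ℕ → X → X → Prop)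
    (hP : ∀ n, ∃ᶠ x in f, P n x ∧ ∀ᶠ y in f, R n x y) :
    ∃ (k : ℕ → ℕ) (s : ℕ → X), StrictMono k ∧ (∀ n, P (k n) (s n)) ∧
      ∀ m n, m < n → R (k m) (s m) (s n) := by
  obtain ⟨g, hg1, hg2⟩ := exists_seq_of_forall_finset_exists (α := ℕ × X)
    (fun p => P p.1 p.2 ∧ ∀ᶠ y in f, R p.1 p.2 y) (fun p q => p.1 < q.1 ∧ R p.1 p.2 q.2) (by
      intro s hs
      have h1 : ∀ᶠ y in f, ∀ p ∈ s, R p.1 p.2 y :=
        (eventually_all_finset s).2 fun p hp => (hs p hp).2
      obtain ⟨y, hy1, hy2⟩ := ((hP (s.sup Prod.fst + 1)).and_eventually h1).exists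
      exact ⟨(s.sup Prod.fst + 1, y), hy1, fun p hp =>
        ⟨Nat.lt_succ_of_le (le_sup (f := Prod.fst) hp), hy2 p hp⟩⟩)
  exact ⟨fun n => (g n).1, fun n => (g n).2, fun m n h => (hg2 m n h).1, fun n => (hg1 n).1,
    fun m n h => (hg2 m n h).2⟩

theorem no_two_rotund [Uncountable I] (N : BX I → ℝ)
    (hadd : ∀ x y, N (x + y) ≤ N x + N y) (hsmul : ∀ (c : ℝ) x, N (c • x) = |c| * N x)
    {a b : ℝ} (ha : 0 < a) (hab : ∀ x, a * ‖x‖ ≤ N x ∧ N x ≤ b * ‖x‖) :
    ∃ s : ℕ → BX I, (∀ n, N (s n) = 1) ∧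
      Tendsto (fun p : ℕ × ℕ => N (s p.1 + s p.2)) atTop (nhds 2) ∧
      ¬ ∃ x, Tendsto s atTop (nhds x) := by
  obtain ⟨α, hα⟩ := exists_stable N
  set E : Set ℝ := {t | ∀ᶠ y in hier α, t < N y} with hE
  have hEa : a / 2 ∈ E := by
    filter_upwards [eventually_norm α] with y hy
    have := (hab y).1
    rw [hy] at this
    linarith
  have hEb : ∀ t ∈ E, t ≤ b := by
    intro t ht
    obtain ⟨y, hy1, hy2⟩ := ((eventually_norm α).and ht).exists
    have := (hab y).2
    rw [hy1] at this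
    linarith
  have hbdd : BddAbove E := ⟨b, hEb⟩
  set c := sSup E with hc
  have hc0 : 0 < c := lt_of_lt_of_le (half_pos ha) (le_csSup hbdd hEa)
  have hlow : ∀ t < c, t ∈ E := by
    intro t ht
    obtain ⟨t', ht', htt⟩ := exists_lt_of_lt_csSup ⟨_, hEa⟩ ht
    exact ht'.mono fun y hy => htt.trans hy
  have hup : ∀ t, c < t → ∃ᶠ y in hier α, N y ≤ t := by
    intro t ht
    by_contra hcon
    rw [not_frequently] at hcon
    have : t ∈ E := hcon.mono fun y hy => not_le.1 hy
    exact absurd (le_csSup hbdd this) (not_le.2 ht)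
  obtain ⟨k, x, hk, hP, hR⟩ := exists_seq_along (hier α)
    (fun n x => |N x - c| ≤ 1 / ((n : ℝ) + 1) ∧ ‖x‖ = 1)
    (fun n x y => c - 1 / ((n : ℝ) + 1) < N ((1 / 2 : ℝ) • (x + y)) ∧
      ∀ s t : ℝ, |s| ≤ ‖s • y - t • x‖) (by
      intro n
      have hε : (0 : ℝ) < 1 / ((n : ℝ) + 1) := by positivity
      obtain ⟨r, hr1, hr2⟩ := exists_rat_btwn (show c - 1 / ((n : ℝ) + 1) < c by linarith)
      have h1 := hlow _ hr2
      have h2 := hα r h1
      have h3 := hup (c + 1 / ((n : ℝ) + 1)) (by linarith)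
      refine (h3.and_eventually (h1.and (h2.and ((eventually_norm α).and
        (eventually_fin α))))).mono ?_
      rintro x ⟨hx1, hx2, hx3, hx4, hx5⟩
      refine ⟨⟨abs_le.2 ⟨by linarith, by linarith⟩, hx4⟩, ?_⟩
      filter_upwards [hx3, eventually_far α hx5] with y hy1 hy2
      exact ⟨by linarith, hy2⟩)
  have hNpos : ∀ n, 0 < N (x n) := fun n => by
    have := (hab (x n)).1
    rw [(hP n).2] at this
    linarith
  have hNb : ∀ n, N (x n) ≤ b := fun n => by
    have := (hab (x n)).2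
    rw [(hP n).2] at this
    linarith
  have hb0 : 0 < b := lt_of_lt_of_le (hNpos 0) (hNb 0)
  set s : ℕ → BX I := fun n => (N (x n))⁻¹ • x n with hs
  have hs1 : ∀ n, N (s n) = 1 := fun n => by
    rw [hs]
    simp only
    rw [hsmul, abs_of_pos (inv_pos.2 (hNpos n)), inv_mul_cancel₀ (hNpos n).ne']
  have hkε : ∀ n : ℕ, 1 / ((k n : ℝ) + 1) ≤ 1 / ((n : ℝ) + 1) := fun n => by
    have : (n : ℝ) ≤ k n := by exact_mod_cast hk.id_le n
    gcongr
  have hdiff : ∀ n, N (x n - c • s n) ≤ 1 / ((n : ℝ) + 1) := fun n => by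
    have e : x n - c • s n = (N (x n) - c) • s n := by
      rw [sub_smul, hs]
      simp only
      rw [smul_smul (N (x n)), mul_inv_cancel₀ (hNpos n).ne', one_smul]
    rw [e, hsmul, hs1, mul_one]
    exact (hP n).1.trans (hkε n)
  have hlow2 : ∀ m n : ℕ, m < n → 2 - 4 / c * (1 / ((m : ℝ) + 1)) ≤ N (s m + s n) := by
    intro m n hmn
    have h1 := (hR m n hmn).1
    rw [hsmul] at h1
    have h2 : x m + x n = c • (s m + s n) + ((x m - c • s m) + (x n - c • s n)) := by
      rw [smul_add]; abel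
    have h3 := hadd (c • (s m + s n)) ((x m - c • s m) + (x n - c • s n))
    rw [← h2, hsmul, abs_of_pos hc0] at h3
    have h4 := hadd (x m - c • s m) (x n - c • s n)
    have h5 := hdiff m
    have h6 := hdiff n
    have h7 := hkε m
    have h8 : 1 / ((n : ℝ) + 1) ≤ 1 / ((m : ℝ) + 1) := by
      have : (m : ℝ) ≤ n := by exact_mod_cast hmn.le
      gcongr
    rw [abs_of_pos (by norm_num : (0 : ℝ) < 1 / 2)] at h1
    have h9 : c * 2 - 4 * (1 / ((m : ℝ) + 1)) ≤ c * N (s m + s n) := by linarith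
    have h10 : c * (2 - 4 / c * (1 / ((m : ℝ) + 1))) = c * 2 - 4 * (1 / ((m : ℝ) + 1)) := by
      field_simp
    rw [← h10] at h9
    exact le_of_mul_le_mul_left h9 hc0
  have hup2 : ∀ m n, N (s m + s n) ≤ 2 := fun m n => by
    have := hadd (s m) (s n)
    rw [hs1, hs1] at this
    linarith
  refine ⟨s, hs1, ?_, ?_⟩
  · have hlim : Tendsto (fun p : ℕ × ℕ => 2 - 4 / c * (1 / (((min p.1 p.2 : ℕ) : ℝ) + 1))) atTop
        (nhds 2) := by
      have h1 : Tendsto (fun p : ℕ × ℕ => min p.1 p.2) atTop atTop := by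
        rw [tendsto_atTop]
        intro n
        filter_upwards [eventually_ge_atTop (n, n)] with p hp
        exact le_min hp.1 hp.2
      have h2 := (tendsto_one_div_add_atTop_nhds_zero_nat (𝕜 := ℝ)).comp h1
      have h3 := (h2.const_mul (4 / c)).const_sub 2
      simpa using h3
    refine tendsto_of_tendsto_of_tendsto_of_le_of_le hlim tendsto_const_nhds (fun p => ?_)
      (fun p => hup2 p.1 p.2)
    obtain ⟨m, n⟩ := p
    rcases lt_trichotomy m n with h | h | h
    · simpa [min_eq_left h.le] using hlow2 m n h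
    · subst h
      have : N (s m + s m) = 2 := by
        rw [← two_smul ℝ, hsmul, hs1]; norm_num
      simp only [this]
      have : 0 ≤ 4 / c * (1 / (((min m m : ℕ) : ℝ) + 1)) := by positivity
      linarith
    · have := hlow2 n m h
      rw [add_comm (s n)] at this
      simpa [min_eq_right h.le] using this
  · rintro ⟨z, hz⟩
    obtain ⟨n, hn⟩ := Metric.cauchySeq_iff.1 hz.cauchySeq b⁻¹ (inv_pos.2 hb0)
    have h1 := hn (n + 1) (Nat.le_succ n) n le_rfl
    rw [dist_eq_norm] at h1
    have h2 := (hR n (n + 1) (Nat.lt_succ_self n)).2 (N (x (n + 1)))⁻¹ (N (x n))⁻¹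
    rw [abs_of_pos (inv_pos.2 (hNpos _))] at h2
    have h3 : b⁻¹ ≤ (N (x (n + 1)))⁻¹ := inv_anti₀ (hNpos _) (hNb _)
    exact absurd (h3.trans h2) (not_le.2 h1)

end Pool.Agent.MP_160a79_an
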