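import Pool.Agent.MP_160a79_an.Space

/-!
The space `BX I` is reflexive.
-/

set_option autoImplicit false

universe u

namespace Pool.Agent.MP_160a79_an

open Finset

variable {I : Type u} [LinearOrder I] [OrderTop I]

/-- A finitely supported vector. -/
def ofSupp (x : Finset I → ℝ) (A : Finset (Finset I)) (hx : ∀ S ∉ A, x S = 0) : BX I :=
  BX.mk x ⟨(mass A x) ^ 2, fun _ hL => qs_le_of_supp hx hL⟩

/-- Restriction of a function to a finite set of coordinates. -/
def res (A : Finset (Finset I)) (x : Finset I → ℝ) : BX I :=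
  ofSupp (fun S => if S ∈ A then x S else 0) A (fun S hS => by simp [hS])

theorem res_val (A : Finset (Finset I)) (x : Finset I → ℝ) (S : Finset I) :
    (res A x).val S = if S ∈ A then x S else 0 := rfl

/-- Unit vectors. -/
def ev (S : Finset I) : BX I := res {S} (fun _ => 1)

theorem ev_val (S T : Finset I) : (ev S).val T = if T = S then 1 else 0 := by
  simp [ev, res_val]

theorem norm_res_le (A : Finset (Finset I)) (x : BX I) : ‖res A x.val‖ ≤ ‖x‖ := by
  apply norm_mono
  intro S
  rw [res_val]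
  split_ifs <;> simp

theorem norm_sub_res_le (A : Finset (Finset I)) (x : BX I) : ‖x - res A x.val‖ ≤ ‖x‖ := by
  apply norm_mono
  intro S
  rw [BX.val_sub, Pi.sub_apply, res_val]
  split_ifs <;> simp

theorem val_sum {ι : Type*} (s : Finset ι) (f : ι → BX I) (T : Finset I) :
    (∑ i ∈ s, f i).val T = ∑ i ∈ s, (f i).val T := by
  classical
  induction s using Finset.induction_on with
  | empty => simp
  | insert a s ha ih => rw [sum_insert ha, sum_insert ha, BX.val_add, Pi.add_apply, ih]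

theorem res_eq_sum (A : Finset (Finset I)) (x : Finset I → ℝ) :
    res A x = ∑ S ∈ A, x S • ev S := by
  apply BX.ext
  funext T
  rw [val_sum, res_val]
  simp only [BX.val_smul, Pi.smul_apply, ev_val, smul_eq_mul, mul_ite, mul_one, mul_zero]
  rw [Finset.sum_ite_eq]

/-- Coordinate functionals. -/
noncomputable def co (S : Finset I) : BX I →L[ℝ] ℝ :=
  LinearMap.mkContinuous
    { toFun := fun x => x.val S
      map_add' := fun _ _ => rfl
      map_smul' := fun _ _ => rfl } 1 (fun x => by simpa using coord_le_norm x S)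

@[simp] theorem co_apply (S : Finset I) (x : BX I) : co S x = x.val S := rfl

/-- The finite-rank truncation of a functional. -/
noncomputable def trunc (A : Finset (Finset I)) (φ : BX I →L[ℝ] ℝ) : BX I →L[ℝ] ℝ :=
  ∑ S ∈ A, φ (ev S) • co S

theorem trunc_apply (A : Finset (Finset I)) (φ : BX I →L[ℝ] ℝ) (x : BX I) :
    trunc A φ x = φ (res A x.val) := by
  rw [res_eq_sum, map_sum, trunc, _root_.sum_apply]
  refine sum_congr rfl fun S _ => ?_
  simp [mul_comm]

theorem norm_trunc_le (A : Finset (Finset I)) (φ : BX I →L[ℝ] ℝ) : ‖trunc A φ‖ ≤ ‖φ‖ := by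
  apply ContinuousLinearMap.opNorm_le_bound _ (norm_nonneg _)
  intro x
  rw [trunc_apply]
  exact (φ.le_opNorm _).trans (mul_le_mul_of_nonneg_left (norm_res_le A x) (norm_nonneg _))

/-- union of a list of families -/
def uni (L : List (Finset (Finset I))) : Finset (Finset I) := L.foldr (· ∪ ·) ∅

omit [OrderTop I] in
theorem subset_uni {L : List (Finset (Finset I))} {F : Finset (Finset I)} (h : F ∈ L) :
    F ⊆ uni L := by
  induction L with
  | nil => simp at h
  | cons G L ih =>
    rcases List.mem_cons.1 h with rfl | h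
    · exact subset_union_left
    · exact (ih h).trans subset_union_right

omit [LinearOrder I] [OrderTop I] in
theorem qs_congr {L : List (Finset (Finset I))} {x y : Finset I → ℝ}
    (h : ∀ F ∈ L, mass F x = mass F y) : qs L x = qs L y := by
  unfold qs
  congr 1
  exact List.map_congr_left fun F hF => by rw [h F hF]

theorem qs_res_uni (L : List (Finset (Finset I))) (x : Finset I → ℝ) :
    qs L (res (uni L) x).val = qs L x := by
  apply qs_congr
  intro F hF
  refine sum_congr rfl fun S hS => ?_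
  rw [res_val, if_pos (subset_uni hF hS)]

theorem exists_res_close (x : BX I) {ε : ℝ} (hε : 0 < ε) :
    ∃ A : Finset (Finset I), ‖x - res A x.val‖ ≤ ε := by
  have h1 : QQ x - ε ^ 2 < QQ x := by have := pow_pos hε 2; linarith
  obtain ⟨⟨L, hL⟩, hL2⟩ := exists_lt_of_lt_ciSup h1
  refine ⟨uni L, norm_le_of_qs _ hε.le fun L' hL' => ?_⟩
  have hfam : Fam (L ++ L'.map (· \ uni L)) := by
    constructor
    · intro F hF
      rcases List.mem_append.1 hF with h | h
      · exact hL.1 F h
      · obtain ⟨G, hG, rfl⟩ := List.mem_map.1 h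
        exact (hL'.1 G hG).sdiff _
    · rw [List.pairwise_append]
      refine ⟨hL.2, ?_, ?_⟩
      · rw [List.pairwise_map]
        exact hL'.2.imp fun h => h.mono sdiff_subset sdiff_subset
      · intro F hF G hG
        obtain ⟨G, _, rfl⟩ := List.mem_map.1 hG
        exact Disjoint.mono_left (subset_uni hF) disjoint_sdiff
  have h2 := le_QQ x hfam
  rw [qs_append] at h2
  have h3 : qs (L'.map (· \ uni L)) x.val = qs L' (x - res (uni L) x.val).val := by
    unfold qs
    rw [List.map_map]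
    congr 1
    apply List.map_congr_left
    intro F _
    simp only [Function.comp]
    congr 1
    unfold mass
    rw [← sum_sdiff (inter_subset_left : F ∩ uni L ⊆ F), sdiff_inter_self_left]
    have e1 : ∑ S ∈ F ∩ uni L, |(x - res (uni L) x.val).val S| = 0 := by
      apply sum_eq_zero
      intro S hS
      rw [BX.val_sub, Pi.sub_apply, res_val, if_pos (mem_inter.1 hS).2]
      simp
    rw [e1, add_zero]
    refine sum_congr rfl fun S hS => ?_
    rw [BX.val_sub, Pi.sub_apply, res_val, if_neg (mem_sdiff.1 hS).2, sub_zero]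
  simp only at hL2
  linarith

section shrinking

variable (φ : BX I →L[ℝ] ℝ) (ε : ℝ)

/-- `y` is a finitely supported vector of the unit ball, vanishing on `A`, with `φ y ≥ ε`. -/
def Cand (A : Finset (Finset I)) (y : BX I) : Prop :=
  (∃ B : Finset (Finset I), ∀ S ∉ B, y.val S = 0) ∧ (∀ S ∈ A, y.val S = 0) ∧ ‖y‖ ≤ 1 ∧ ε ≤ φ y

variable {φ ε}

theorem step_aux (hbase : ∀ A, ∃ y, Cand φ ε A y) (α : I)
    (ih : ∀ β < α, ∀ A, ∀ δ > (0 : ℝ), ∃ y, Cand φ ε A y ∧ ∀ F, Adm β F → mass F y.val ≤ δ)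
    (A : Finset (Finset I)) {δ : ℝ} (hδ : 0 < δ) (K : ℕ) :
    ∃ z : BX I, (∃ B : Finset (Finset I), ∀ S ∉ B, z.val S = 0) ∧ (∀ S ∈ A, z.val S = 0) ∧
      ‖z‖ ≤ K ∧ K * ε ≤ φ z ∧ ∀ F, Adm α F → mass F z.val ≤ 1 + 2 * K * δ := by
  induction K with
  | zero =>
    refine ⟨0, ⟨∅, by simp⟩, by simp, by simp, by simp, fun F _ => ?_⟩
    simp [mass]
  | succ K ihK =>
    obtain ⟨z, ⟨B, hB⟩, hzA, hzn, hzφ, hzm⟩ := ihK
    have hy : ∃ y, Cand φ ε (A ∪ B) y ∧
        ∀ β ∈ (B.biUnion id).filter (· < α), ∀ F, Adm β F → mass F y.val ≤ δ := by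
      by_cases hne : ((B.biUnion id).filter (· < α)).Nonempty
      · set γ := ((B.biUnion id).filter (· < α)).max' hne with hγ
        have hγlt : γ < α := (mem_filter.1 (max'_mem _ hne)).2
        obtain ⟨y, hy1, hy2⟩ := ih γ hγlt (A ∪ B) δ hδ
        exact ⟨y, hy1, fun β hβ F hF => hy2 F (hF.mono (le_max' _ β hβ))⟩
      · obtain ⟨y, hy1⟩ := hbase (A ∪ B)
        exact ⟨y, hy1, fun β hβ => absurd ⟨β, hβ⟩ hne⟩
    obtain ⟨y, ⟨⟨B', hB'⟩, hyA, hyn, hyφ⟩, hym⟩ := hy
    refine ⟨z + y, ⟨B ∪ B', fun S hS => ?_⟩, fun S hS => ?_, ?_, ?_, fun F hF => ?_⟩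
    · rw [mem_union, not_or] at hS
      simp [hB S hS.1, hB' S hS.2]
    · simp [hzA S hS, hyA S (mem_union_left _ hS)]
    · have := norm_add_le z y
      push_cast
      linarith
    · rw [map_add]
      push_cast
      linarith
    · have hadd := mass_add F z.val y.val
      rw [BX.val_add]
      have hKδ : 0 ≤ (K : ℝ) * δ := by positivity
      push_cast
      by_cases hFB : ∃ S ∈ F, S ∈ B
      · obtain ⟨S, hSF, hSB⟩ := hFB
        have hz := hzm F hF
        have hy' : mass F y.val ≤ 2 * δ := by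
          cases hF with
          | small _ _ h =>
            have : F = {S} := by
              apply eq_singleton_iff_unique_mem.2 ⟨hSF, fun T hT => ?_⟩
              exact card_le_one.1 h T hT S hSF
            subst this
            simp [mass, hyA S (mem_union_right _ hSB)]
            positivity
          | join _ β F G hlt hF hG h1 h2 =>
            have hβ : β ∈ (B.biUnion id).filter (· < α) := by
              refine mem_filter.2 ⟨mem_biUnion.2 ⟨S, hSB, ?_⟩, hlt⟩
              rcases mem_union.1 hSF with h | h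
              · exact hF S h
              · exact hG S h
            have := mass_union_le F G y.val
            have := hym β hβ F h1
            have := hym β hβ G h2
            linarith
        linarith
      · have hz : mass F z.val = 0 := by
          apply sum_eq_zero
          intro S hS
          have : S ∉ B := fun h => hFB ⟨S, hS, h⟩
          simp [hB S this]
        have := mass_le_norm y hF
        linarith

variable [WellFoundedLT I]

theorem small_mass (hbase : ∀ A, ∃ y, Cand φ ε A y) (α : I) :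
    ∀ A, ∀ δ > (0 : ℝ), ∃ y, Cand φ ε A y ∧ ∀ F, Adm α F → mass F y.val ≤ δ := by
  induction α using WellFoundedLT.induction with
  | ind α ih =>
    intro A δ hδ
    obtain ⟨K, hK⟩ := exists_nat_gt (2 / δ)
    have hK0 : (0 : ℝ) < K := lt_trans (by positivity) hK
    obtain ⟨z, ⟨B, hB⟩, hzA, hzn, hzφ, hzm⟩ :=
      step_aux hbase α ih A (δ := δ / 4) (by positivity) K
    refine ⟨(K : ℝ)⁻¹ • z, ⟨⟨B, fun S hS => by simp [hB S hS]⟩, fun S hS => by simp [hzA S hS],
      ?_, ?_⟩, fun F hF => ?_⟩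
    · rw [norm_smul, Real.norm_eq_abs, abs_of_pos (inv_pos.2 hK0), inv_mul_le_iff₀ hK0]
      simpa using hzn
    · rw [map_smul, smul_eq_mul, le_inv_mul_iff₀ hK0]
      exact hzφ
    · rw [BX.val_smul, mass_smul, abs_of_pos (inv_pos.2 hK0), inv_mul_le_iff₀ hK0]
      have h1 := hzm F hF
      rw [div_lt_iff₀ hδ] at hK
      linarith

theorem not_base (hε : 0 < ε) : ¬ ∀ A, ∃ y, Cand φ ε A y := by
  intro hbase
  have key : ∀ K : ℕ, ∃ z : BX I, (∃ B : Finset (Finset I), ∀ S ∉ B, z.val S = 0) ∧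
      ‖z‖ ^ 2 ≤ 3 * K ∧ K * ε ≤ φ z := by
    intro K
    induction K with
    | zero => exact ⟨0, ⟨∅, by simp⟩, by simp, by simp⟩
    | succ K ih =>
      obtain ⟨z, ⟨B, hB⟩, hzn, hzφ⟩ := ih
      have hm := mass_nonneg B z.val
      obtain ⟨y, ⟨⟨B', hB'⟩, _, hyn, hyφ⟩, hym⟩ :=
        small_mass hbase ⊤ ∅ (1 / (mass B z.val + 1)) (by positivity)
      refine ⟨z + y, ⟨B ∪ B', fun S hS => ?_⟩, ?_, ?_⟩
      · rw [mem_union, not_or] at hS
        simp [hB S hS.1, hB' S hS.2]
      · apply norm_sq_le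
        intro L hL
        have h1 := qs_add_cross L z.val y.val (fun F hF => hym F (hL.1 F hF))
        have h2 := qs_le_norm_sq z hL
        have h3 := qs_le_norm_sq y hL
        have h4 : ‖y‖ ^ 2 ≤ 1 := by
          have := norm_nonneg y
          nlinarith
        have h5 := ms_le L hL.2 hB
        have h6 : 1 / (mass B z.val + 1) * ms L z.val ≤ 1 := by
          rw [div_mul_eq_mul_div, div_le_one (by positivity)]
          linarith
        rw [BX.val_add]
        push_cast
        linarith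
      · rw [map_add]
        push_cast
        linarith
  obtain ⟨K, hK⟩ := exists_nat_gt (3 * ‖φ‖ ^ 2 / ε ^ 2)
  have hK0 : (0 : ℝ) < K := lt_of_le_of_lt (by positivity) hK
  obtain ⟨z, _, hzn, hzφ⟩ := key K
  have h1 : φ z ≤ ‖φ‖ * ‖z‖ := (le_abs_self _).trans (φ.le_opNorm z)
  have h2 : (K * ε) ^ 2 ≤ (‖φ‖ * ‖z‖) ^ 2 := by
    have : 0 ≤ (K : ℝ) * ε := by positivity
    exact pow_le_pow_left₀ this (hzφ.trans h1) 2
  have h3 : (‖φ‖ * ‖z‖) ^ 2 ≤ ‖φ‖ ^ 2 * (3 * K) := by
    rw [mul_pow]
    gcongr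
  rw [div_lt_iff₀ (by positivity)] at hK
  have h4 : (K : ℝ) * (K * ε ^ 2) ≤ K * (3 * ‖φ‖ ^ 2) := by nlinarith
  have h5 := le_of_mul_le_mul_left h4 hK0
  linarith

theorem exists_trunc_close (φ : BX I →L[ℝ] ℝ) {ε : ℝ} (hε : 0 < ε) :
    ∃ A : Finset (Finset I), ‖φ - trunc A φ‖ ≤ ε := by
  by_contra hcon
  push Not at hcon
  apply not_base (φ := φ) (half_pos hε)
  intro A
  obtain ⟨x, hx1, hx2⟩ := (φ - trunc A φ).exists_lt_apply_of_lt_opNorm (hcon A)
  rw [_root_.sub_apply, trunc_apply, ← map_sub] at hx2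
  set w := x - res A x.val with hw
  have hw1 : ‖w‖ ≤ 1 := (norm_sub_res_le A x).trans hx1.le
  obtain ⟨B, hB⟩ := exists_res_close w (ε := ε / 2 / (‖φ‖ + 1)) (by positivity)
  have h1 : ‖φ (w - res B w.val)‖ ≤ ε / 2 := by
    refine (φ.le_opNorm _).trans ?_
    calc ‖φ‖ * ‖w - res B w.val‖ ≤ (‖φ‖ + 1) * (ε / 2 / (‖φ‖ + 1)) := by
          gcongr
          linarith
      _ = ε / 2 := by field_simp
  have h2 : ε / 2 ≤ |φ (res B w.val)| := by
    rw [map_sub] at h1
    have := abs_sub_abs_le_abs_sub (φ w) (φ (res B w.val))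
    rw [Real.norm_eq_abs] at h1 hx2
    linarith
  have hsupp : ∀ S ∉ B, (res B w.val).val S = 0 := fun S hS => by rw [res_val, if_neg hS]
  have hA : ∀ S ∈ A, (res B w.val).val S = 0 := fun S hS => by
    rw [res_val, hw, BX.val_sub, Pi.sub_apply, res_val, if_pos hS]
    simp
  have hn : ‖res B w.val‖ ≤ 1 := (norm_res_le B w).trans hw1
  rcases le_abs.1 h2 with h | h
  · exact ⟨res B w.val, ⟨B, hsupp⟩, hA, hn, h⟩
  · refine ⟨-res B w.val, ⟨B, fun S hS => by simp [hsupp S hS]⟩, fun S hS => by simp [hA S hS],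
      by simpa using hn, by simpa using h⟩

end shrinking

theorem reflexive [WellFoundedLT I] :
    Function.Surjective (NormedSpace.inclusionInDoubleDual ℝ (BX I)) := by
  intro Φ
  set c : Finset I → ℝ := fun S => Φ (co S) with hc
  have htr : ∀ (A : Finset (Finset I)) (ψ : BX I →L[ℝ] ℝ), Φ (trunc A ψ) = ψ (res A c) := by
    intro A ψ
    rw [res_eq_sum, map_sum, trunc, map_sum]
    refine sum_congr rfl fun S _ => ?_
    simp [hc, mul_comm]
  have hb : ∀ A : Finset (Finset I), ‖res A c‖ ≤ ‖Φ‖ := by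
    intro A
    obtain ⟨ψ, hψ1, hψ2⟩ := exists_dual_vector'' ℝ (res A c)
    have h1 := htr A ψ
    have h2 : Φ (trunc A ψ) ≤ ‖Φ‖ * ‖trunc A ψ‖ := (le_abs_self _).trans (Φ.le_opNorm _)
    have h3 := (norm_trunc_le A ψ).trans hψ1
    have h4 : ‖Φ‖ * ‖trunc A ψ‖ ≤ ‖Φ‖ * 1 := by gcongr
    rw [h1, hψ2] at h2
    simp at h2
    linarith
  have hbdd : ∃ M : ℝ, ∀ L, Fam L → qs L c ≤ M := by
    refine ⟨‖Φ‖ ^ 2, fun L hL => ?_⟩
    rw [← qs_res_uni]
    refine (qs_le_norm_sq _ hL).trans ?_
    have := hb (uni L)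
    gcongr
  refine ⟨BX.mk c hbdd, ?_⟩
  ext φ
  rw [NormedSpace.dual_def]
  set x := BX.mk c hbdd with hx
  apply eq_of_forall_dist_le
  intro ε hε
  obtain ⟨A, hA⟩ := exists_trunc_close φ (ε := ε / (‖x‖ + ‖Φ‖ + 1)) (by positivity)
  have h1 : φ x - Φ φ = (φ - trunc A φ) x - Φ (φ - trunc A φ) := by
    rw [map_sub, _root_.sub_apply, trunc_apply, htr]
    simp [hx]
  rw [Real.dist_eq, h1]
  have h2 : |(φ - trunc A φ) x| ≤ ‖φ - trunc A φ‖ * ‖x‖ := (φ - trunc A φ).le_opNorm x
  have h3 : |Φ (φ - trunc A φ)| ≤ ‖Φ‖ * ‖φ - trunc A φ‖ := Φ.le_opNorm _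
  have h4 := abs_sub ((φ - trunc A φ) x) (Φ (φ - trunc A φ))
  have h5 : ‖φ - trunc A φ‖ * (‖x‖ + ‖Φ‖ + 1) ≤ ε := by
    rwa [le_div_iff₀ (by positivity)] at hA
  have := norm_nonneg (φ - trunc A φ)
  nlinarith

theorem complete [WellFoundedLT I] : CompleteSpace (BX I) := by
  have h : Function.Surjective (NormedSpace.inclusionInDoubleDualLi (E := BX I) ℝ) := reflexive
  exact (LinearIsometryEquiv.ofSurjective _ h).toIsometryEquiv.completeSpace

theorem not_separable [Uncountable I] : ¬ TopologicalSpace.SeparableSpace (BX I) := by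
  intro hsep
  have h : Countable I := by
    apply Pairwise.countable_of_isOpen_disjoint
      (s := fun i : I => Metric.ball (ev {i}) (1 / 2 : ℝ))
    · intro i j hij
      apply Metric.ball_disjoint_ball
      rw [dist_eq_norm]
      have := coord_le_norm (ev {i} - ev {j}) {i}
      simp [ev_val, hij] at this
      linarith
    · exact fun i => Metric.isOpen_ball
    · exact fun i => Metric.nonempty_ball.2 (by norm_num)
  exact not_countable h

end Pool.Agent.MP_160a79_an
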