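import Mathlib

/-!
A Baernstein-type space over the finite subsets of a well-ordered set `I`.
-/

set_option autoImplicit false

universe u

namespace Pool.Agent.MP_160a79_an

open Finset

variable {I : Type u} [LinearOrder I]

/-- `Adm α F`: the finite family `F` of finite subsets of `I` is `α`-admissible. -/
inductive Adm : I → Finset (Finset I) → Prop
  | small (α : I) (F : Finset (Finset I)) (h : F.card ≤ 1) : Adm α F
  | join (α β : I) (F G : Finset (Finset I)) (hlt : β < α) (hF : ∀ S ∈ F, β ∈ S)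
      (hG : ∀ S ∈ G, β ∈ S) (h1 : Adm β F) (h2 : Adm β G) : Adm α (F ∪ G)

theorem Adm.mono {α β : I} {F : Finset (Finset I)} (h : Adm α F) (hab : α ≤ β) : Adm β F := by
  cases h with
  | small _ _ h => exact Adm.small _ _ h
  | join _ γ F G hlt hF hG h1 h2 => exact Adm.join _ γ F G (lt_of_lt_of_le hlt hab) hF hG h1 h2

theorem Adm.sdiff {α : I} {F : Finset (Finset I)} (h : Adm α F) (A : Finset (Finset I)) :
    Adm α (F \ A) := by
  induction h with
  | small α F h => exact Adm.small _ _ (le_trans (card_le_card sdiff_subset) h)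
  | join α γ F G hlt hF hG h1 h2 ih1 ih2 =>
    rw [union_sdiff_distrib]
    exact Adm.join _ γ _ _ hlt (fun S hS => hF S (mem_sdiff.1 hS).1)
      (fun S hS => hG S (mem_sdiff.1 hS).1) ih1 ih2

/-- The `ℓ¹` mass of `x` on `F`. -/
def mass (F : Finset (Finset I)) (x : Finset I → ℝ) : ℝ := ∑ S ∈ F, |x S|

/-- The sum of the squares of the masses along a list of families. -/
def qs (L : List (Finset (Finset I))) (x : Finset I → ℝ) : ℝ :=
  (L.map fun F => (mass F x) ^ 2).sum

omit [LinearOrder I] in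
theorem mass_nonneg (F : Finset (Finset I)) (x : Finset I → ℝ) : 0 ≤ mass F x :=
  sum_nonneg fun _ _ => abs_nonneg _

omit [LinearOrder I] in
theorem mass_mono {F : Finset (Finset I)} {x y : Finset I → ℝ} (h : ∀ S, |x S| ≤ |y S|) :
    mass F x ≤ mass F y :=
  sum_le_sum fun S _ => h S

omit [LinearOrder I] in
theorem mass_add (F : Finset (Finset I)) (x y : Finset I → ℝ) :
    mass F (x + y) ≤ mass F x + mass F y := by
  unfold mass
  rw [← sum_add_distrib]
  exact sum_le_sum fun S _ => abs_add_le _ _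

omit [LinearOrder I] in
theorem mass_smul (F : Finset (Finset I)) (c : ℝ) (x : Finset I → ℝ) :
    mass F (c • x) = |c| * mass F x := by
  unfold mass
  rw [mul_sum]
  exact sum_congr rfl fun S _ => by simp [abs_mul]

theorem mass_union_le (F G : Finset (Finset I)) (x : Finset I → ℝ) :
    mass (F ∪ G) x ≤ mass F x + mass G x := by
  unfold mass
  rw [← sum_union_inter]
  have : 0 ≤ ∑ S ∈ F ∩ G, |x S| := sum_nonneg fun _ _ => abs_nonneg _
  linarith

omit [LinearOrder I] in
@[simp] theorem qs_nil (x : Finset I → ℝ) : qs [] x = 0 := rfl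

omit [LinearOrder I] in
@[simp] theorem qs_cons (F : Finset (Finset I)) (L : List (Finset (Finset I)))
    (x : Finset I → ℝ) : qs (F :: L) x = (mass F x) ^ 2 + qs L x := by
  simp [qs]

omit [LinearOrder I] in
theorem qs_append (L L' : List (Finset (Finset I))) (x : Finset I → ℝ) :
    qs (L ++ L') x = qs L x + qs L' x := by
  simp [qs]

omit [LinearOrder I] in
theorem qs_nonneg (L : List (Finset (Finset I))) (x : Finset I → ℝ) : 0 ≤ qs L x := by
  induction L with
  | nil => simp
  | cons F L ih => rw [qs_cons]; positivity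

omit [LinearOrder I] in
theorem qs_mono (L : List (Finset (Finset I))) {x y : Finset I → ℝ} (h : ∀ S, |x S| ≤ |y S|) :
    qs L x ≤ qs L y := by
  induction L with
  | nil => simp
  | cons F L ih =>
    rw [qs_cons, qs_cons]
    have h1 := mass_mono (F := F) h
    have h2 := mass_nonneg F x
    have : mass F x ^ 2 ≤ mass F y ^ 2 := by gcongr
    linarith

omit [LinearOrder I] in
theorem qs_smul (L : List (Finset (Finset I))) (c : ℝ) (x : Finset I → ℝ) :
    qs L (c • x) = c ^ 2 * qs L x := by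
  induction L with
  | nil => simp
  | cons F L ih =>
    rw [qs_cons, qs_cons, ih, mass_smul, mul_pow, sq_abs]
    ring

omit [LinearOrder I] in
theorem qs_add (L : List (Finset (Finset I))) (x y : Finset I → ℝ) {t : ℝ} (ht : 0 < t) :
    qs L (x + y) ≤ (1 + t) * qs L x + (1 + 1 / t) * qs L y := by
  induction L with
  | nil => simp
  | cons F L ih =>
    rw [qs_cons, qs_cons, qs_cons]
    have h1 := mass_add F x y
    have h2 := mass_nonneg F (x + y)
    have h3 : mass F (x + y) ^ 2 ≤ (mass F x + mass F y) ^ 2 := by gcongr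
    have h4 : (mass F x + mass F y) ^ 2 ≤
        (1 + t) * mass F x ^ 2 + (1 + 1 / t) * mass F y ^ 2 := by
      have : 0 ≤ (t * mass F x - mass F y) ^ 2 / t := by positivity
      have e : (1 + t) * mass F x ^ 2 + (1 + 1 / t) * mass F y ^ 2 - (mass F x + mass F y) ^ 2
          = (t * mass F x - mass F y) ^ 2 / t := by
        field_simp
        ring
      linarith
    linarith

/-- total mass along a list -/
def ms (L : List (Finset (Finset I))) (x : Finset I → ℝ) : ℝ :=
  (L.map fun F => mass F x).sum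

omit [LinearOrder I] in
@[simp] theorem ms_nil (x : Finset I → ℝ) : ms [] x = 0 := rfl

omit [LinearOrder I] in
@[simp] theorem ms_cons (F : Finset (Finset I)) (L : List (Finset (Finset I)))
    (x : Finset I → ℝ) : ms (F :: L) x = mass F x + ms L x := by
  simp [ms]

omit [LinearOrder I] in
theorem ms_nonneg (L : List (Finset (Finset I))) (x : Finset I → ℝ) : 0 ≤ ms L x := by
  induction L with
  | nil => simp
  | cons F L ih => rw [ms_cons]; have := mass_nonneg F x; positivity

theorem ms_le_aux (L : List (Finset (Finset I))) (hL : L.Pairwise Disjoint)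
    (x : Finset I → ℝ) (A : Finset (Finset I)) :
    (L.map fun F => mass (F ∩ A) x).sum ≤ mass A x := by
  induction L generalizing A with
  | nil => simpa using mass_nonneg A x
  | cons F L ih =>
    rw [List.pairwise_cons] at hL
    have h1 := ih hL.2 (A \ F)
    have h2 : (L.map fun G => mass (G ∩ (A \ F)) x) = L.map fun G => mass (G ∩ A) x := by
      apply List.map_congr_left
      intro G hG
      congr 1
      ext S
      have := hL.1 G hG
      rw [Finset.disjoint_left] at this
      simp only [mem_inter, mem_sdiff]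
      constructor
      · rintro ⟨a, b, _⟩; exact ⟨a, b⟩
      · rintro ⟨a, b⟩; exact ⟨a, b, fun h => this h a⟩
    rw [h2] at h1
    rw [List.map_cons, List.sum_cons]
    have h3 : mass (F ∩ A) x + mass (A \ F) x = mass A x := by
      unfold mass
      rw [inter_comm, sum_inter_add_sum_sdiff]
    linarith

theorem mass_inter_eq {x : Finset I → ℝ} {A : Finset (Finset I)} (hx : ∀ S ∉ A, x S = 0)
    (F : Finset (Finset I)) : mass (F ∩ A) x = mass F x := by
  unfold mass
  apply sum_subset inter_subset_left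
  intro S hS hS'
  have : S ∉ A := fun h => hS' (mem_inter.2 ⟨hS, h⟩)
  simp [hx S this]

theorem ms_le (L : List (Finset (Finset I))) (hL : L.Pairwise Disjoint)
    {x : Finset I → ℝ} {A : Finset (Finset I)} (hx : ∀ S ∉ A, x S = 0) :
    ms L x ≤ mass A x := by
  have := ms_le_aux L hL x A
  simpa only [mass_inter_eq hx, ms] using this

omit [LinearOrder I] in
theorem qs_le_ms_sq (L : List (Finset (Finset I))) (x : Finset I → ℝ) :
    qs L x ≤ (ms L x) ^ 2 := by
  induction L with
  | nil => simp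
  | cons F L ih =>
    rw [qs_cons, ms_cons]
    have h1 := mass_nonneg F x
    have h2 := ms_nonneg L x
    nlinarith [mul_nonneg h1 h2]

omit [LinearOrder I] in
theorem qs_add_cross (L : List (Finset (Finset I))) (z y : Finset I → ℝ) {δ : ℝ}
    (hy : ∀ F ∈ L, mass F y ≤ δ) :
    qs L (z + y) ≤ qs L z + qs L y + 2 * δ * ms L z := by
  induction L with
  | nil => simp
  | cons F L ih =>
    rw [qs_cons, qs_cons, qs_cons, ms_cons]
    have ih' := ih fun G hG => hy G (List.mem_cons_of_mem _ hG)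
    have h1 := mass_add F z y
    have h2 := mass_nonneg F (z + y)
    have h3 : mass F (z + y) ^ 2 ≤ (mass F z + mass F y) ^ 2 := by gcongr
    have h4 := hy F List.mem_cons_self
    have h5 := mass_nonneg F z
    nlinarith [mul_le_mul_of_nonneg_left h4 h5]

variable [OrderTop I]

/-- Lists of pairwise disjoint admissible families. -/
def Fam (L : List (Finset (Finset I))) : Prop :=
  (∀ F ∈ L, Adm (⊤ : I) F) ∧ L.Pairwise Disjoint

theorem fam_nil : Fam ([] : List (Finset (Finset I))) := ⟨by simp, List.Pairwise.nil⟩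

theorem fam_single {F : Finset (Finset I)} (h : Adm (⊤ : I) F) : Fam [F] :=
  ⟨by simpa using h, List.pairwise_singleton _ _⟩

variable (I) in
/-- The underlying vector space. -/
def sub : Submodule ℝ (Finset I → ℝ) where
  carrier := {x | ∃ M : ℝ, ∀ L, Fam L → qs L x ≤ M}
  add_mem' := by
    rintro x y ⟨M, hM⟩ ⟨M', hM'⟩
    refine ⟨(1 + 1) * M + (1 + 1 / 1) * M', fun L hL => ?_⟩
    have h1 := qs_add L x y one_pos
    have h2 := hM L hL
    have h3 := hM' L hL
    linarith
  zero_mem' := by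
    refine ⟨0, fun L _ => ?_⟩
    have := qs_smul L 0 (0 : Finset I → ℝ)
    simp at this
    exact this.le
  smul_mem' := by
    rintro c x ⟨M, hM⟩
    refine ⟨c ^ 2 * M, fun L hL => ?_⟩
    rw [qs_smul]
    exact mul_le_mul_of_nonneg_left (hM L hL) (sq_nonneg c)

variable (I) in
/-- The space. -/
def BX : Type u := ↥(sub I)

instance : AddCommGroup (BX I) := inferInstanceAs (AddCommGroup ↥(sub I))
instance : Module ℝ (BX I) := inferInstanceAs (Module ℝ ↥(sub I))

/-- coordinates -/
def BX.val (x : BX I) : Finset I → ℝ := Subtype.val x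

/-- build an element -/
def BX.mk (x : Finset I → ℝ) (h : ∃ M : ℝ, ∀ L, Fam L → qs L x ≤ M) : BX I :=
  (⟨x, h⟩ : ↥(sub I))

@[simp] theorem BX.val_mk (x : Finset I → ℝ) (h : ∃ M : ℝ, ∀ L, Fam L → qs L x ≤ M) :
    (BX.mk x h).val = x := rfl

theorem BX.bdd (x : BX I) : ∃ M : ℝ, ∀ L, Fam L → qs L x.val ≤ M := Subtype.property x

theorem BX.ext {x y : BX I} (h : x.val = y.val) : x = y := Subtype.ext h

@[simp] theorem BX.val_add (x y : BX I) : (x + y).val = x.val + y.val := rfl
@[simp] theorem BX.val_sub (x y : BX I) : (x - y).val = x.val - y.val := rfl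
@[simp] theorem BX.val_neg (x : BX I) : (-x).val = -x.val := rfl
@[simp] theorem BX.val_zero : (0 : BX I).val = 0 := rfl
@[simp] theorem BX.val_smul (c : ℝ) (x : BX I) : (c • x).val = c • x.val := rfl

/-- The square of the norm. -/
noncomputable def QQ (x : BX I) : ℝ := ⨆ L : {L : List (Finset (Finset I)) // Fam L}, qs L.1 x.val

instance : Nonempty {L : List (Finset (Finset I)) // Fam L} := ⟨⟨[], fam_nil⟩⟩

theorem le_QQ (x : BX I) {L : List (Finset (Finset I))} (hL : Fam L) : qs L x.val ≤ QQ x := by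
  obtain ⟨M, hM⟩ := x.bdd
  refine le_ciSup (f := fun L : {L : List (Finset (Finset I)) // Fam L} => qs L.1 x.val)
    ⟨M, ?_⟩ ⟨L, hL⟩
  rintro _ ⟨L, rfl⟩
  exact hM L.1 L.2

theorem QQ_le (x : BX I) {M : ℝ} (h : ∀ L, Fam L → qs L x.val ≤ M) : QQ x ≤ M :=
  ciSup_le fun L => h L.1 L.2

theorem QQ_nonneg (x : BX I) : 0 ≤ QQ x := by
  simpa using le_QQ x fam_nil

theorem QQ_smul_le (c : ℝ) (x : BX I) : QQ (c • x) ≤ c ^ 2 * QQ x := by
  apply QQ_le
  intro L hL
  rw [BX.val_smul, qs_smul]
  exact mul_le_mul_of_nonneg_left (le_QQ x hL) (sq_nonneg c)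

theorem eq_zero_of_QQ (x : BX I) (h : QQ x = 0) : x = 0 := by
  apply BX.ext
  funext S
  have h1 := le_QQ x (fam_single (Adm.small ⊤ {S} (by simp)))
  rw [h] at h1
  simp [mass] at h1
  simpa using h1

theorem sqrt_QQ_add (x y : BX I) : √(QQ (x + y)) ≤ √(QQ x) + √(QQ y) := by
  by_cases hx : QQ x = 0
  · rw [eq_zero_of_QQ x hx, zero_add]
    have := Real.sqrt_nonneg (QQ (0 : BX I))
    linarith
  by_cases hy : QQ y = 0
  · rw [eq_zero_of_QQ y hy, add_zero]
    have := Real.sqrt_nonneg (QQ (0 : BX I))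
    linarith
  have hx' : 0 < QQ x := lt_of_le_of_ne (QQ_nonneg x) (Ne.symm hx)
  have hy' : 0 < QQ y := lt_of_le_of_ne (QQ_nonneg y) (Ne.symm hy)
  set a := √(QQ x) with ha
  set b := √(QQ y) with hb
  have ha0 : 0 < a := Real.sqrt_pos.2 hx'
  have hb0 : 0 < b := Real.sqrt_pos.2 hy'
  have ha2 : a ^ 2 = QQ x := Real.sq_sqrt hx'.le
  have hb2 : b ^ 2 = QQ y := Real.sq_sqrt hy'.le
  apply Real.sqrt_le_iff.2 ⟨by positivity, ?_⟩
  apply QQ_le
  intro L hL
  have ht : 0 < b / a := by positivity
  have h1 := qs_add L x.val y.val ht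
  have h2 := le_QQ x hL
  have h3 := le_QQ y hL
  have h4 : (1 + b / a) * qs L x.val ≤ (1 + b / a) * a ^ 2 := by
    rw [ha2]; gcongr
  have h5 : (1 + 1 / (b / a)) * qs L y.val ≤ (1 + 1 / (b / a)) * b ^ 2 := by
    rw [hb2]; gcongr
  have h6 : (1 + b / a) * a ^ 2 + (1 + 1 / (b / a)) * b ^ 2 = (a + b) ^ 2 := by
    field_simp
    ring
  rw [BX.val_add]
  linarith

theorem QQ_neg (x : BX I) : QQ (-x) = QQ x := by
  have h : ∀ x : BX I, QQ (-x) ≤ QQ x := fun x => by
    have := QQ_smul_le (-1) x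
    simpa using this
  apply le_antisymm (h x)
  have := h (-x)
  rwa [neg_neg] at this

noncomputable instance : NormedAddCommGroup (BX I) :=
  AddGroupNorm.toNormedAddCommGroup
    { toFun := fun x => √(QQ x)
      map_zero' := by
        have h := QQ_smul_le 0 (0 : BX I)
        simp at h
        exact Real.sqrt_eq_zero'.2 h
      add_le' := sqrt_QQ_add
      neg' := fun x => by rw [QQ_neg]
      eq_zero_of_map_eq_zero' := fun x hx => by
        apply eq_zero_of_QQ
        exact le_antisymm (Real.sqrt_eq_zero'.1 hx) (QQ_nonneg x) }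

theorem norm_def (x : BX I) : ‖x‖ = √(QQ x) := rfl

noncomputable instance : NormedSpace ℝ (BX I) where
  norm_smul_le c x := by
    rw [norm_def, norm_def]
    have h := QQ_smul_le c x
    calc √(QQ (c • x)) ≤ √(c ^ 2 * QQ x) := Real.sqrt_le_sqrt h
      _ = ‖c‖ * √(QQ x) := by
        rw [Real.sqrt_mul (sq_nonneg c), Real.sqrt_sq_eq_abs, Real.norm_eq_abs]

theorem norm_sq (x : BX I) : ‖x‖ ^ 2 = QQ x := by
  rw [norm_def, Real.sq_sqrt (QQ_nonneg x)]

theorem qs_le_norm_sq (x : BX I) {L : List (Finset (Finset I))} (hL : Fam L) :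
    qs L x.val ≤ ‖x‖ ^ 2 := by
  rw [norm_sq]; exact le_QQ x hL

theorem norm_sq_le (x : BX I) {M : ℝ} (h : ∀ L, Fam L → qs L x.val ≤ M) : ‖x‖ ^ 2 ≤ M := by
  rw [norm_sq]; exact QQ_le x h

theorem norm_le_of_qs (x : BX I) {M : ℝ} (hM : 0 ≤ M) (h : ∀ L, Fam L → qs L x.val ≤ M ^ 2) :
    ‖x‖ ≤ M :=
  abs_le_of_sq_le_sq' (norm_sq_le x h) hM |>.2

theorem mass_le_norm (x : BX I) {α : I} {F : Finset (Finset I)} (h : Adm α F) :
    mass F x.val ≤ ‖x‖ := by
  have h1 := qs_le_norm_sq x (fam_single (h.mono le_top))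
  simp only [qs_cons, qs_nil, add_zero] at h1
  exact abs_le_of_sq_le_sq' h1 (norm_nonneg x) |>.2

theorem coord_le_norm (x : BX I) (S : Finset I) : |x.val S| ≤ ‖x‖ := by
  have := mass_le_norm x (Adm.small ⊤ {S} (by simp))
  simpa [mass] using this

theorem norm_mono {x y : BX I} (h : ∀ S, |x.val S| ≤ |y.val S|) : ‖x‖ ≤ ‖y‖ :=
  norm_le_of_qs x (norm_nonneg y) fun L hL => (qs_mono L h).trans (qs_le_norm_sq y hL)

theorem qs_le_of_supp {x : Finset I → ℝ} {A : Finset (Finset I)} (hx : ∀ S ∉ A, x S = 0)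
    {L : List (Finset (Finset I))} (hL : Fam L) : qs L x ≤ (mass A x) ^ 2 := by
  have h1 := qs_le_ms_sq L x
  have h2 := ms_le L hL.2 hx
  have h3 := ms_nonneg L x
  have : ms L x ^ 2 ≤ mass A x ^ 2 := by gcongr
  linarith

theorem norm_le_mass (x : BX I) {A : Finset (Finset I)} (hx : ∀ S ∉ A, x.val S = 0) :
    ‖x‖ ≤ mass A x.val :=
  norm_le_of_qs x (mass_nonneg _ _) fun _ hL => qs_le_of_supp hx hL

end Pool.Agent.MP_160a79_an
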